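import Pool.Agent.Y710.EP.P4

/-!
Job EP-PERT5 (adapted from Pool/Agent/Y691/NS/PERT4): differentiation, and the reduced system.
-/

open Set Filter Topology

set_option autoImplicit false
set_option linter.all false

namespace Pool.Agent.Y710.EP

open Pool.Agent.Y5.D Pool.Agent.Y5.E Pool.Agent.Y5.F Pool.Agent.Y8.EP

variable {J : Type} {g : J → ℕ} {κ μ lam Λ M : ℝ} {L C ℓ : ℕ → ℝ} {B : ℕ → ℕ → ℝ}
  {c : Ix J → Ix J → Ix J → ℝ}

/-! ### Majorants -/

theorem wsum (hK : Ker g Λ M L C B c) (hs : Sq5 κ μ lam Λ M L C ℓ B) :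
    Summable (fun a : Ix J => L (gr g a) * (L (gr g a))⁻¹ ^ 4) := by
  have hLp : ∀ n, 0 < L n := fun n => lt_of_lt_of_le one_pos (L_one hs n)
  have hinv : ∀ n, (L n)⁻¹ ≤ (1 / 2) ^ n := by
    intro n
    rw [one_div, inv_pow]
    exact inv_anti₀ (by positivity) (L_geo hs n)
  have hinv1 : ∀ n, (L n)⁻¹ ≤ 1 := fun n => inv_le_one_of_one_le₀ (L_one hs n)
  have hinv0 : ∀ n, 0 ≤ (L n)⁻¹ := fun n => (inv_pos.2 (hLp n)).le
  have h3 : ∀ n, L n * (L n)⁻¹ ^ 4 = (L n)⁻¹ ^ 3 := by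
    intro n
    have := (hLp n).ne'
    field_simp
  refine Summable.sum _ ?_ ?_
  · refine Summable.of_nonneg_of_le (fun n => ?_) (fun n => ?_) summable_geometric_two
    · show 0 ≤ L n * (L n)⁻¹ ^ 4
      have := hLp n
      positivity
    · show L n * (L n)⁻¹ ^ 4 ≤ (1 / 2) ^ n
      rw [h3]
      refine le_trans ?_ (hinv n)
      exact pow_le_of_le_one (hinv0 n) (hinv1 n) (by norm_num)
  · obtain ⟨D, hD⟩ := hK.card
    refine (Pool.Agent.Y494.ND.grp_sum hK.fin (M := fun m => D * L m ^ 2)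
      (h := fun m => L m * (L m)⁻¹ ^ 4) hD (fun m => ?_) ?_).1
    · have := hLp m
      positivity
    · have hD0 : 0 ≤ D := by
        have h1 := (Nat.cast_nonneg _).trans (hD 0)
        exact nonneg_of_mul_nonneg_left h1 (by have := hLp 0; positivity)
      refine Summable.of_nonneg_of_le (fun m => ?_) (fun m => ?_) (summable_geometric_two.mul_left D)
      · have := hLp m
        positivity
      · have := (hLp m).ne'
        have e : D * L m ^ 2 * (L m * (L m)⁻¹ ^ 4) = D * (L m)⁻¹ := by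
          field_simp
        rw [e]
        exact mul_le_mul_of_nonneg_left (hinv m) hD0

theorem maj (hK : Ker g Λ M L C B c) (hs : Sq5 κ μ lam Λ M L C ℓ B) {T T' : ℝ} (hT : T' < T)
    {z : Ix J → ℝ → ℝ} (hr : Rapid (rI L g) T z) :
    ∃ Z : Ix J → ℝ, (∀ a, 0 ≤ Z a) ∧ Nice g L Z ∧ ∀ t ∈ Icc 0 T', ∀ a, |z a t| ≤ Z a := by
  obtain ⟨K, hK4⟩ := hr 4 T' hT
  have hLp : ∀ n, 0 < L n := fun n => lt_of_lt_of_le one_pos (L_one hs n)
  refine ⟨fun a => √K * (L (gr g a))⁻¹ ^ 4, fun a => ?_, ?_, fun t ht a => ?_⟩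
  · have := hLp (gr g a)
    positivity
  · have h1 : Summable (fun a : Ix J => L (gr g a) * |√K * (L (gr g a))⁻¹ ^ 4|) := by
      refine ((wsum hK hs).mul_left √K).congr fun a => ?_
      have := hLp (gr g a)
      rw [abs_of_nonneg (by positivity)]
      ring
    exact h1
  · obtain ⟨h1, h2⟩ := hK4 t ht
    have h3 : (rI L g a ^ 4 * z a t) ^ 2 ≤ K := (h1.le_tsum a fun _ _ => sq_nonneg _).trans h2
    have h4 : |rI L g a ^ 4 * z a t| ≤ √K := Real.abs_le_sqrt h3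
    have h5 := hLp (gr g a)
    have h6 : rI L g a = L (gr g a) := rfl
    rw [h6, abs_mul, abs_of_nonneg (by positivity : (0 : ℝ) ≤ L (gr g a) ^ 4)] at h4
    show |z a t| ≤ √K * (L (gr g a))⁻¹ ^ 4
    rw [inv_pow, ← div_eq_mul_inv, le_div_iff₀ (by positivity), mul_comm]
    exact h4

theorem nice_at (hK : Ker g Λ M L C B c) (hs : Sq5 κ μ lam Λ M L C ℓ B) {T : ℝ}
    {z : Ix J → ℝ → ℝ} (hr : Rapid (rI L g) T z) {t : ℝ} (ht : t ∈ Ico 0 T) :
    Nice g L (fun a => z a t) := by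
  obtain ⟨Z, h0, h1, h2⟩ := maj hK hs ht.2 hr
  refine h1.mono hs fun a => ?_
  rw [abs_of_nonneg (h0 a)]
  exact h2 t ⟨ht.1, le_rfl⟩ a

/-! ### Damping -/

theorem S_one (hs : Sq5 κ μ lam Λ M L C ℓ B) : 1 ≤ Real.exp μ := by
  have := μ_one hs
  exact Real.one_le_exp (by linarith)

theorem κp (hs : Sq5 κ μ lam Λ M L C ℓ B) (n : ℕ) : 0 ≤ κ ^ n ∧ κ ^ n ≤ 1 :=
  ⟨pow_nonneg hs.κ0.le n, pow_le_one₀ hs.κ0.le hs.κ1⟩

theorem Sd_pos (hs : Sq5 κ μ lam Λ M L C ℓ B) (n : ℕ) : 0 < Sd κ μ L n :=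
  mul_pos (Real.exp_pos _) (mul_pos (pow_pos hs.κ0 n) (lt_of_lt_of_le one_pos (L_one hs n)))

theorem Sd_le (hs : Sq5 κ μ lam Λ M L C ℓ B) (n : ℕ) : Sd κ μ L n ≤ Real.exp μ * L n :=
  mul_le_mul_of_nonneg_left (mul_le_of_le_one_left (L_nn hs n) (κp hs n).2) (Real.exp_pos _).le

theorem Sd_mono (hs : Sq5 κ μ lam Λ M L C ℓ B) : Monotone (Sd κ μ L) := by
  refine monotone_nat_of_le_succ fun n => ?_
  have e : Sd κ μ L (n + 1) = μ * Sd κ μ L n := by
    unfold Sd
    rw [hs.L_succ, hs.μ_eq, pow_succ]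
    ring
  rw [e]
  exact le_mul_of_one_le_left (Sd_pos hs n).le (μ_one hs)

theorem ell_le (hs : Sq5 κ μ lam Λ M L C ℓ B) (n : ℕ) : ℓ n ≤ L n := by
  cases n with
  | zero =>
    have h1 := hs.ℓ_zero
    have h2 := μ_one hs
    have h3 := hs.ℓ_nonneg 0
    nlinarith
  | succ n =>
    have h1 := hs.ℓ_succ n
    have h3 := L_nn hs n
    obtain ⟨h8, h9⟩ := κp hs n
    have h6 : κ ^ n * L n ≤ 1 * L n := mul_le_mul_of_nonneg_right h9 h3
    have h7 := L_mono hs (show n ≤ n + 1 by omega)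
    rw [one_mul] at h6
    have h10 : 0 ≤ κ ^ n * L n := mul_nonneg h8 h3
    linarith

theorem ell_mono (hs : Sq5 κ μ lam Λ M L C ℓ B) : Monotone (fun n => ℓ (n + 1)) := by
  refine monotone_nat_of_le_succ fun n => ?_
  have e : ℓ (n + 1 + 1) = μ * ℓ (n + 1) := by
    rw [hs.ℓ_succ (n + 1), hs.ℓ_succ n, hs.L_succ, hs.μ_eq, pow_succ]
    ring
  show ℓ (n + 1) ≤ ℓ (n + 1 + 1)
  rw [e]
  exact le_mul_of_one_le_left (hs.ℓ_nonneg _) (μ_one hs)

theorem ell_mono' (hs : Sq5 κ μ lam Λ M L C ℓ B) {n m : ℕ} (h : n + 1 ≤ m) : ℓ (n + 1) ≤ ℓ m := by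
  obtain ⟨k, rfl⟩ : ∃ k, m = k + 1 := ⟨m - 1, by omega⟩
  exact ell_mono hs (show n ≤ k by omega)

theorem ell_Sd (hs : Sq5 κ μ lam Λ M L C ℓ B) (n : ℕ) : ℓ (n + 1) ≤ Sd κ μ L (n + 1) / 2 := by
  have e : Sd κ μ L (n + 1) = Real.exp μ * μ * (κ ^ n * L n) := by
    unfold Sd
    rw [hs.L_succ, hs.μ_eq, pow_succ]
    ring
  rw [e, hs.ℓ_succ n]
  have h1 : 0 ≤ κ ^ n * L n := mul_nonneg (κp hs n).1 (L_nn hs n)
  have h2 : (2 : ℝ) ≤ Real.exp μ * μ := by
    have h3 := S_one hs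
    have h4 : (2 : ℝ) ≤ μ := le_trans (by norm_num) hs.μ_big
    calc (2 : ℝ) = 1 * 2 := by norm_num
      _ ≤ Real.exp μ * μ := mul_le_mul h3 h4 (by norm_num) (Real.exp_pos _).le
  have h5 := mul_le_mul_of_nonneg_right h2 h1
  linarith

theorem dE_nn (hs : Sq5 κ μ lam Λ M L C ℓ B) (a : Ix J) : 0 ≤ dF ℓ (Sd κ μ L) g a := by
  cases a with
  | inl n => exact hs.ℓ_nonneg n
  | inr j => exact (Sd_pos hs _).le

theorem dE_le (hs : Sq5 κ μ lam Λ M L C ℓ B) (a : Ix J) :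
    dF ℓ (Sd κ μ L) g a ≤ Real.exp μ * L (gr g a) := by
  cases a with
  | inl n =>
    have h1 := ell_le hs n
    have h2 := S_one hs
    have h3 := L_nn hs n
    show ℓ n ≤ Real.exp μ * L n
    nlinarith
  | inr j => exact Sd_le hs _

/-! ### Differentiation -/

theorem deriv_gen (hK : Ker g Λ M L C B c) (hs : Sq5 κ μ lam Λ M L C ℓ B) {T : ℝ}
    {z : Ix J → ℝ → ℝ} (hz : ASol2 (dF ℓ (Sd κ μ L) g) (rI L g) c T z)
    (hr : Rapid (rI L g) T z) (χ : Ix J → ℝ) (hχ : ∀ a, |χ a| ≤ 1) {t : ℝ} (ht : t ∈ Ico 0 T) :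
    Summable (fun a => χ a * (dF ℓ (Sd κ μ L) g a * z a t ^ 2)) ∧
    HasDerivWithinAt (fun τ => ∑' a, χ a * z a τ ^ 2)
      (-(2 * ∑' a, χ a * (dF ℓ (Sd κ μ L) g a * z a t ^ 2)) +
        2 * tl c (fun a => χ a * z a t) (fun a => z a t) (fun a => z a t)) (Ico 0 T) t := by
  set S := Real.exp μ with hSd
  have hS1 : 1 ≤ S := S_one hs
  obtain ⟨T', hT1, hT2⟩ : ∃ T', t < T' ∧ T' < T :=
    ⟨(t + T) / 2, by linarith [ht.2], by linarith [ht.2]⟩
  obtain ⟨Z, hZ0, hZn, hZb⟩ := maj hK hs hT2 hr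
  have hZn' : Summable (fun a => L (gr g a) * Z a) :=
    Summable.congr hZn fun a => by rw [abs_of_nonneg (hZ0 a)]
  have hZs : Summable Z := (hZn.sum1 hs).congr fun a => abs_of_nonneg (hZ0 a)
  set E := ∑' a, Z a with hE
  have hE0 : 0 ≤ E := tsum_nonneg hZ0
  have hZE : ∀ a, Z a ≤ E := fun a => hZs.le_tsum a fun b _ => hZ0 b
  have hsubI : Ico 0 T' ⊆ Icc 0 T' := Ico_subset_Icc_self
  have hsub : Ico 0 T' ⊆ Ico 0 T := Ico_subset_Ico_right hT2.le
  have hnice : ∀ τ ∈ Icc 0 T', Nice g L (fun a => z a τ) := fun τ hτ =>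
    hZn.mono hs fun a => by rw [abs_of_nonneg (hZ0 a)]; exact hZb τ hτ a
  have hM := M_nn hs
  have hbl : ∀ τ ∈ Icc 0 T', ∀ a, |bl c (fun b => z b τ) (fun b => z b τ) a| ≤
      M * L (gr g a) * (E * E) := by
    intro τ hτ a
    refine (bl_summable hK hs (hnice τ hτ) (hnice τ hτ) a).2.trans ?_
    have h1 : ∑' b, |z b τ| ≤ E := ((hnice τ hτ).sum1 hs).tsum_le_tsum (fun b => hZb τ hτ b) hZs
    have h2 : 0 ≤ ∑' b, |z b τ| := tsum_nonneg fun b => abs_nonneg _
    have h3 := L_nn hs (gr g a)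
    gcongr
  have hd : ∀ τ ∈ Icc 0 T', ∀ a, dF ℓ (Sd κ μ L) g a * z a τ ^ 2 ≤ (S * E) * (L (gr g a) * Z a) := by
    intro τ hτ a
    have h1 := dE_le (g := g) hs a
    have h2 := hZb τ hτ a
    have h3 := hZE a
    have h4 := hZ0 a
    have h5 := L_nn hs (gr g a)
    have h6 : z a τ ^ 2 ≤ E * Z a := by
      rw [← sq_abs, _root_.sq]
      exact mul_le_mul (h2.trans h3) h2 (abs_nonneg _) hE0
    calc dF ℓ (Sd κ μ L) g a * z a τ ^ 2 ≤ (S * L (gr g a)) * (E * Z a) :=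
          mul_le_mul h1 h6 (sq_nonneg _) (by positivity)
      _ = _ := by ring
  have hq : ∀ τ ∈ Icc 0 T', ∀ a, |z a τ * bl c (fun b => z b τ) (fun b => z b τ) a| ≤
      (M * (E * E)) * (L (gr g a) * Z a) := by
    intro τ hτ a
    rw [abs_mul]
    calc |z a τ| * |bl c (fun b => z b τ) (fun b => z b τ) a| ≤ Z a * (M * L (gr g a) * (E * E)) :=
          mul_le_mul (hZb τ hτ a) (hbl τ hτ a) (abs_nonneg _) (hZ0 a)
      _ = _ := by ring
  have hd0 := fun a => dE_nn (g := g) hs a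
  have hsd : Summable (fun a => dF ℓ (Sd κ μ L) g a * z a t ^ 2) :=
    Summable.of_nonneg_of_le (fun a => mul_nonneg (hd0 a) (sq_nonneg _))
      (hd t ⟨ht.1, hT1.le⟩) (hZn'.mul_left _)
  have hsχ : Summable (fun a => χ a * (dF ℓ (Sd κ μ L) g a * z a t ^ 2)) := by
    refine Summable.of_norm_bounded hsd fun a => ?_
    rw [norm_mul, Real.norm_eq_abs, Real.norm_eq_abs,
      abs_of_nonneg (mul_nonneg (hd0 a) (sq_nonneg (z a t)))]
    exact mul_le_of_le_one_left (mul_nonneg (hd0 a) (sq_nonneg _)) (hχ a)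
  refine ⟨hsχ, ?_⟩
  have hder : ∀ a, ∀ τ ∈ Ico 0 T', HasDerivWithinAt (z a) (-(dF ℓ (Sd κ μ L) g a * z a τ) +
      bl c (fun b => z b τ) (fun b => z b τ) a) (Ico 0 T') τ := fun a τ hτ =>
    (hz.deriv a τ (hsub hτ)).mono hsub
  have htn := hnice t ⟨ht.1, hT1.le⟩
  have hmain := Pool.Agent.Y494.ND.hasDerivWithinAt_tsum' (I := Ix J) (S := Ico 0 T')
    (convex_Ico 0 T')
    (f := fun a τ => χ a * z a τ ^ 2)
    (f' := fun a τ => χ a * (2 * z a τ * (-(dF ℓ (Sd κ μ L) g a * z a τ) +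
      bl c (fun b => z b τ) (fun b => z b τ) a)))
    (u := fun a => (2 * (S * E) + 2 * (M * (E * E))) * (L (gr g a) * Z a))
    (hZn'.mul_left _) (by
      intro a τ hτ
      have h1 := ((hder a τ hτ).pow 2).const_mul (χ a)
      refine h1.congr_deriv ?_
      norm_num) (by
      intro a τ hτ
      have h1 := hd τ (hsubI hτ) a
      have h2 := hq τ (hsubI hτ) a
      have h3 : 0 ≤ dF ℓ (Sd κ μ L) g a * z a τ ^ 2 := mul_nonneg (hd0 a) (sq_nonneg _)
      rw [abs_mul]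
      refine (mul_le_of_le_one_left (abs_nonneg _) (hχ a)).trans ?_
      have e : 2 * z a τ * (-(dF ℓ (Sd κ μ L) g a * z a τ) + bl c (fun b => z b τ) (fun b => z b τ) a) =
        -(2 * (dF ℓ (Sd κ μ L) g a * z a τ ^ 2)) +
          2 * (z a τ * bl c (fun b => z b τ) (fun b => z b τ) a) := by ring
      rw [e]
      refine (abs_add_le _ _).trans ?_
      have e1 : |-(2 * (dF ℓ (Sd κ μ L) g a * z a τ ^ 2))| = 2 * (dF ℓ (Sd κ μ L) g a * z a τ ^ 2) := by
        rw [abs_neg, abs_of_nonneg (by linarith)]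
      have e2 : |2 * (z a τ * bl c (fun b => z b τ) (fun b => z b τ) a)| =
          2 * |z a τ * bl c (fun b => z b τ) (fun b => z b τ) a| := by
        rw [abs_mul, abs_two]
      rw [e1, e2]
      have e3 : (2 * (S * E) + 2 * (M * (E * E))) * (L (gr g a) * Z a) =
        2 * ((S * E) * (L (gr g a) * Z a)) + 2 * ((M * (E * E)) * (L (gr g a) * Z a)) := by ring
      rw [e3]
      linarith) (by
      intro τ hτ
      refine Summable.of_norm_bounded ((hnice τ (hsubI hτ)).sq hs) fun a => ?_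
      rw [norm_mul, Real.norm_eq_abs, Real.norm_eq_abs, abs_of_nonneg (sq_nonneg (z a τ))]
      exact mul_le_of_le_one_left (sq_nonneg _) (hχ a)) (t := t) ⟨ht.1, hT1⟩
  have hχn : Nice g L (fun a => χ a * z a t) := htn.mono hs fun a => by
    rw [abs_mul]
    exact mul_le_of_le_one_left (abs_nonneg _) (hχ a)
  obtain ⟨k1, k2⟩ := tl_bl hK hs hχn htn htn
  have hval : ∑' a, χ a * (2 * z a t * (-(dF ℓ (Sd κ μ L) g a * z a t) +
      bl c (fun b => z b t) (fun b => z b t) a)) =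
      -(2 * ∑' a, χ a * (dF ℓ (Sd κ μ L) g a * z a t ^ 2)) +
        2 * tl c (fun a => χ a * z a t) (fun a => z a t) (fun a => z a t) := by
    have e : ∀ a, χ a * (2 * z a t * (-(dF ℓ (Sd κ μ L) g a * z a t) +
        bl c (fun b => z b t) (fun b => z b t) a)) =
        -(2 * (χ a * (dF ℓ (Sd κ μ L) g a * z a t ^ 2))) +
          2 * (χ a * z a t * bl c (fun b => z b t) (fun b => z b t) a) := by
      intro a; ring
    rw [tsum_congr e, Summable.tsum_add (hsχ.mul_left 2).neg (k1.mul_left 2), tsum_neg,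
      tsum_mul_left, tsum_mul_left, k2]
  rw [hval] at hmain
  refine hmain.mono_of_mem_nhdsWithin ?_
  have h7 : Ico 0 T ∩ Iio T' ∈ 𝓝[Ico 0 T] t :=
    inter_mem_nhdsWithin _ (Iio_mem_nhds hT1)
  refine mem_of_superset h7 ?_
  rintro s ⟨hs1, hs2⟩
  exact ⟨hs1.1, hs2⟩

/-! ### The reduced system -/

theorem wz_eq (z : Ix J → ℝ → ℝ) (n : ℕ) (t : ℝ) : wz g z n t = ww g (fun a => z a t) n := by
  unfold wz
  rw [← ww_sq (g := g) (fun a => z a t) n, Real.sqrt_sq (ww_nn _ _)]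

theorem Yt_eq (hs : Sq5 κ μ lam Λ M L C ℓ B) {z : Ix J → ℝ → ℝ} {t : ℝ}
    (hz : Nice g L (fun a => z a t)) (m : ℕ) :
    Yt (fun n => z (Sum.inl n)) (wz g z) m t = nm (Pu g m (fun a => z a t)) ^ 2 := by
  rw [← Y_eq hs hz m]
  unfold Yt
  refine tsum_congr fun k => ?_
  rw [wz_eq]

theorem Wt_eq (hs : Sq5 κ μ lam Λ M L C ℓ B) {z : Ix J → ℝ → ℝ} {t : ℝ}
    (hz : Nice g L (fun a => z a t)) (m : ℕ) :
    Wt (wz g z) m t = nm (Pu g m (Po (fun a => z a t))) ^ 2 := by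
  rw [← W_eq hs hz m]
  unfold Wt
  refine tsum_congr fun k => ?_
  rw [wz_eq]

theorem At_eq (z : Ix J → ℝ → ℝ) (t : ℝ) (m : ℕ) :
    Aq (Λ / lam) (fun n => z (Sum.inl n)) (wz g z) m t = sA (Λ / lam) (ee g (fun a => z a t)) m := by
  unfold Aq sA ee
  refine Finset.sum_congr rfl fun p _ => ?_
  rw [wz_eq]

theorem Aw_eq (z : Ix J → ℝ → ℝ) (t : ℝ) (m : ℕ) :
    Awq (Λ / lam) (wz g z) m t = sA (Λ / lam) (ww g (fun a => z a t)) m := by
  unfold Awq sA
  refine Finset.sum_congr rfl fun p _ => ?_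
  rw [wz_eq]

theorem Ut_eq (z : Ix J → ℝ → ℝ) (t : ℝ) (m : ℕ) :
    Ut L (fun n => z (Sum.inl n)) m t = sU L (fun q => |z (Sum.inl q) t|) m := rfl

theorem Uw_eq (z : Ix J → ℝ → ℝ) (t : ℝ) (m : ℕ) :
    Uw L (wz g z) m t = sU L (ww g (fun a => z a t)) m := by
  unfold Uw sU
  refine Finset.sum_congr rfl fun p _ => ?_
  rw [wz_eq]

theorem loc_eq (z : Ix J → ℝ → ℝ) (t : ℝ) (m : ℕ) :
    loc L (fun n => z (Sum.inl n)) (wz g z) m t = lc L g (fun a => z a t) m := by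
  unfold loc lc
  rw [wz_eq, wz_eq]

/-- indicator of the groups from `m` on -/
noncomputable def χu (g : J → ℕ) (m : ℕ) (a : Ix J) : ℝ := if m ≤ gr g a then 1 else 0
/-- indicator of the other modes of the group `n` -/
noncomputable def χw (g : J → ℕ) (n : ℕ) : Ix J → ℝ
  | Sum.inl _ => 0
  | Sum.inr j => if g j = n then 1 else 0

theorem χu_le (m : ℕ) (a : Ix J) : |χu g m a| ≤ 1 := by
  unfold χu; split_ifs <;> simp
theorem χw_le (m : ℕ) (a : Ix J) : |χw g m a| ≤ 1 := by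
  cases a with
  | inl n => simp [χw]
  | inr j => unfold χw; dsimp only; split_ifs <;> simp

theorem χu_mul (m : ℕ) (z : Ix J → ℝ) : (fun a => χu g m a * z a) = Pu g m z := by
  funext a
  unfold χu Pu
  split_ifs <;> simp
theorem χw_mul (m : ℕ) (z : Ix J → ℝ) : (fun a => χw g m a * z a) = Pg g m (Po z) := by
  funext a
  cases a with
  | inl n => simp [χw, Pg, Po]
  | inr j =>
    show (if g j = m then (1 : ℝ) else 0) * z (Sum.inr j) = if g j = m then z (Sum.inr j) else 0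
    split_ifs <;> simp

theorem χu_sq (m : ℕ) (z : Ix J → ℝ) : ∑' a, χu g m a * z a ^ 2 = nm (Pu g m z) ^ 2 := by
  rw [nm_sq]
  refine tsum_congr fun a => ?_
  unfold χu Pu
  split_ifs <;> simp
theorem χw_sq (m : ℕ) (z : Ix J → ℝ) : ∑' a, χw g m a * z a ^ 2 = ww g z m ^ 2 := by
  unfold ww
  rw [nm_sq]
  refine tsum_congr fun a => ?_
  cases a with
  | inl n => simp [χw, Pg, Po]
  | inr j =>
    show (if g j = m then (1 : ℝ) else 0) * z (Sum.inr j) ^ 2 =
      (if g j = m then z (Sum.inr j) else 0) ^ 2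
    split_ifs <;> simp

theorem t_PERT5 : S_PERT5 := by
  classical
  intro J g κ μ lam Λ M L C ℓ B c hK hs T z hz hr hi
  have hn : ∀ t ∈ Ico 0 T, Nice g L (fun a => z a t) := fun t ht => nice_at hK hs hr ht
  have hE2 : ∀ t ∈ Ico 0 T, Summable (fun a => dF ℓ (Sd κ μ L) g a * z a t ^ 2) ∧
      HasDerivWithinAt (fun τ => ∑' a, z a τ ^ 2)
      (-(2 * ∑' a, dF ℓ (Sd κ μ L) g a * z a t ^ 2)) (Ico 0 T) t := by
    intro t ht
    have h := deriv_gen hK hs hz hr (fun _ => 1) (fun a => by simp) ht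
    simp only [one_mul] at h
    rw [tl_self hK, mul_zero, add_zero] at h
    exact h
  have hE1 : ∀ t ∈ Ico 0 T, Summable (fun a => z a t ^ 2) := fun t ht => (hn t ht).sq hs
  have hd0 : ∀ a : Ix J, 0 ≤ dF ℓ (Sd κ μ L) g a := fun a => dE_nn hs a
  have hE0 : ∑' a, z a 0 ^ 2 = 1 := by
    rw [tsum_eq_single (Sum.inl 0)]
    · rw [hi.1, one_pow]
    · intro a ha
      cases a with
      | inl n =>
        cases n with
        | zero => exact absurd rfl ha
        | succ n => rw [hi.2.1 n]; norm_num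
      | inr w => rw [hi.2.2 w]; norm_num
  have hEle : ∀ t ∈ Ico 0 T, ∑' a, z a t ^ 2 ≤ 1 := by
    intro t ht
    have h1 : MonotoneOn (fun τ => -∑' a, z a τ ^ 2) (Ico 0 T) := by
      refine Pool.Agent.Y494.ND.mono_of
        (f' := fun τ => 2 * ∑' a, dF ℓ (Sd κ μ L) g a * z a τ ^ 2) ?_ ?_
      · intro τ hτ
        have := (hE2 τ hτ).2.neg
        rw [neg_neg] at this
        exact this
      · intro τ hτ
        exact mul_nonneg zero_le_two (tsum_nonneg fun a => mul_nonneg (hd0 a) (sq_nonneg _))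
    have h2 := h1 ⟨le_rfl, ht.1.trans_lt ht.2⟩ ht ht.1
    simp only at h2
    rw [hE0] at h2
    linarith
  refine ⟨fun t ht => ⟨hE1 t ht, hEle t ht⟩, hE2,
    fun n t => bl c (fun a => z a t) (fun a => z a t) (Sum.inl n) -
      (vf3 L C ℓ B (fun m => z (Sum.inl m) t) n + ℓ n * z (Sum.inl n) t), ?_⟩
  -- derivative of the tail energies
  have hYd : ∀ m, ∀ t ∈ Ico 0 T, HasDerivWithinAt (Yt (fun n => z (Sum.inl n)) (wz g z) m)
      (-(2 * ∑' a, χu g m a * (dF ℓ (Sd κ μ L) g a * z a t ^ 2)) +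
        2 * tl c (Pu g m (fun a => z a t)) (fun a => z a t) (fun a => z a t)) (Ico 0 T) t := by
    intro m t ht
    have h := (deriv_gen hK hs hz hr (χu g m) (χu_le m) ht).2
    have e : (fun a => χu g m a * z a t) = Pu g m (fun a => z a t) := χu_mul m _
    rw [e] at h
    refine h.congr (fun τ hτ => ?_) ?_
    · rw [χu_sq]
      exact Yt_eq hs (hn τ hτ) m
    · rw [χu_sq]
      exact Yt_eq hs (hn t ht) m
  refine
    { dx := ?_, fb := ?_, w0 := ?_, dw := ?_, dY0 := ?_, dY := ?_, bdd := ?_, en := ?_,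
      x0 := hi.1, xs := hi.2.1, ws := ?_ }
  · intro n t ht
    refine (hz.deriv (Sum.inl n) t ht).congr_deriv ?_
    show -(ℓ n * z (Sum.inl n) t) + bl c (fun a => z a t) (fun a => z a t) (Sum.inl n) = _
    ring
  · intro n t ht
    have hnt := hn t ht
    let δ : Ix J → ℝ := fun i => if i = Sum.inl n then 1 else 0
    have hδ1 : ∀ i, i ≠ Sum.inl n → δ i = 0 := fun i h => if_neg h
    have hδ2 : δ (Sum.inl n) = 1 := if_pos rfl
    have hδn : Nice g L δ := single_nice hs hδ1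
    have hδm : nm δ = 1 := by
      unfold nm
      rw [tsum_eq_single (Sum.inl n) (fun i h => by rw [hδ1 i h]; norm_num), hδ2]
      norm_num
    have e1 : bl c (fun a => z a t) (fun a => z a t) (Sum.inl n) =
        tl c δ (fun a => z a t) (fun a => z a t) := by
      rw [← (tl_bl hK hs hδn hnt hnt).2,
        tsum_eq_single (Sum.inl n) (fun i h => by rw [hδ1 i h, zero_mul]), hδ2, one_mul]
    have e2 := tl_main hK hs (z := fun a => z a t)
      ((hE1 t ht).comp_injective Sum.inl_injective) hδ1 hδ2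
    show |bl c (fun a => z a t) (fun a => z a t) (Sum.inl n) -
      (vf3 L C ℓ B (fun m => z (Sum.inl m) t) n + ℓ n * z (Sum.inl n) t)| ≤ _
    rw [e1, ← e2]
    refine (f_static hK hs hnt hδ1 hδm).trans (le_of_eq ?_)
    rw [At_eq, Aw_eq, Uw_eq, loc_eq, Yt_eq hs hnt, Yt_eq hs hnt, Wt_eq hs hnt,
      Real.sqrt_sq (nm_nn _), Real.sqrt_sq (nm_nn _), Real.sqrt_sq (nm_nn _)]
  · intro n t ht
    rw [wz_eq]; exact ww_nn _ _
  · intro n t ht
    have hnt := hn t ht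
    have h := (deriv_gen hK hs hz hr (χw g n) (χw_le n) ht).2
    have e : (fun a => χw g n a * z a t) = Pg g n (Po (fun a => z a t)) := χw_mul n _
    rw [e] at h
    refine ⟨_, h.congr (fun τ hτ => ?_) ?_, ?_⟩
    · rw [χw_sq, wz_eq]
    · rw [χw_sq, wz_eq]
    · have e1 : ∑' a, χw g n a * (dF ℓ (Sd κ μ L) g a * z a t ^ 2) =
          Sd κ μ L n * ww g (fun a => z a t) n ^ 2 := by
        rw [← χw_sq, ← tsum_mul_left]
        refine tsum_congr fun a => ?_
        cases a with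
        | inl k => simp [χw]
        | inr j =>
          show (if g j = n then (1 : ℝ) else 0) * (Sd κ μ L (g j) * z (Sum.inr j) t ^ 2) =
            Sd κ μ L n * ((if g j = n then (1 : ℝ) else 0) * z (Sum.inr j) t ^ 2)
          split_ifs with hj
          · rw [hj]; ring
          · ring
      rw [e1, At_eq, Yt_eq hs hnt, Real.sqrt_sq (nm_nn _), wz_eq]
      have h1 := (abs_le.1 (w_static hK hs hnt n)).2
      have e2 : (if n = 0 then (0 : ℝ) else L (n - 1) * sA (Λ / lam) (ee g (fun a => z a t)) n *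
          (|z (Sum.inl (n - 1)) t| + wz g z (n - 1) t)) = (if n = 0 then 0 else
          L (n - 1) * sA (Λ / lam) (ee g (fun a => z a t)) n * ee g (fun a => z a t) (n - 1)) := by
        rw [wz_eq]; rfl
      rw [e2]
      set P := 10 ^ 6 * M ^ 4 * (L n * (sA (Λ / lam) (ee g (fun a => z a t)) n +
        nm (Pu g n (fun a => z a t))) * nm (Pu g n (fun a => z a t)) + (if n = 0 then 0 else
          L (n - 1) * sA (Λ / lam) (ee g (fun a => z a t)) n * ee g (fun a => z a t) (n - 1))) with hP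
      have e3 : 2 * Sd κ μ L n * ww g (fun a => z a t) n ^ 2 =
        2 * (Sd κ μ L n * ww g (fun a => z a t) n ^ 2) := by ring
      rw [e3]
      linarith
  · intro t ht
    refine ⟨_, hYd 0 t ht, ?_⟩
    have e1 : Pu g 0 (fun a => z a t) = fun a => z a t := by
      funext a
      exact if_pos (by omega)
    rw [e1, tl_self hK]
    have h1 : 0 ≤ ∑' a, χu g 0 a * (dF ℓ (Sd κ μ L) g a * z a t ^ 2) := by
      refine tsum_nonneg fun a => mul_nonneg ?_ (mul_nonneg (hd0 a) (sq_nonneg _))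
      unfold χu; split_ifs <;> norm_num
    linarith
  · intro n t ht
    have hnt := hn t ht
    refine ⟨_, hYd (n + 1) t ht, ?_⟩
    have hls := ell_Sd hs n
    have hl0 := hs.ℓ_nonneg (n + 1)
    have hS0 := Sd_pos hs (n + 1)
    have hD : ℓ (n + 1) * nm (Pu g (n + 1) (fun a => z a t)) ^ 2 +
        Sd κ μ L (n + 1) / 2 * nm (Pu g (n + 1) (Po (fun a => z a t))) ^ 2 ≤
        ∑' a, χu g (n + 1) a * (dF ℓ (Sd κ μ L) g a * z a t ^ 2) := by
      have h1 := (deriv_gen hK hs hz hr (χu g (n + 1)) (χu_le (n + 1)) ht).1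
      have s1 := ((hnt.pu hs (n + 1)).sq hs).mul_left (ℓ (n + 1))
      have s2 := (((hnt.po hs).pu hs (n + 1)).sq hs).mul_left (Sd κ μ L (n + 1) / 2)
      rw [nm_sq, nm_sq, ← tsum_mul_left, ← tsum_mul_left, ← Summable.tsum_add s1 s2]
      refine (s1.add s2).tsum_le_tsum (fun a => ?_) h1
      cases a with
      | inl k =>
        have e1 : Pu g (n + 1) (Po (fun a => z a t)) (Sum.inl k) = 0 := by simp [Pu, Po]
        rw [e1]
        show ℓ (n + 1) * (if n + 1 ≤ k then z (Sum.inl k) t else 0) ^ 2 +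
          Sd κ μ L (n + 1) / 2 * 0 ^ 2 ≤
          (if n + 1 ≤ k then (1 : ℝ) else 0) * (ℓ k * z (Sum.inl k) t ^ 2)
        split_ifs with hk
        · have h3 := mul_le_mul_of_nonneg_right (ell_mono' hs hk) (sq_nonneg (z (Sum.inl k) t))
          linarith
        · simp
      | inr j =>
        show ℓ (n + 1) * (if n + 1 ≤ g j then z (Sum.inr j) t else 0) ^ 2 +
          Sd κ μ L (n + 1) / 2 * (if n + 1 ≤ g j then z (Sum.inr j) t else 0) ^ 2 ≤
          (if n + 1 ≤ g j then (1 : ℝ) else 0) * (Sd κ μ L (g j) * z (Sum.inr j) t ^ 2)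
        split_ifs with hj
        · have h3 := mul_le_mul_of_nonneg_right (Sd_mono hs hj) (sq_nonneg (z (Sum.inr j) t))
          have h4 := mul_le_mul_of_nonneg_right hls (sq_nonneg (z (Sum.inr j) t))
          linarith
        · simp
    have hD' : Sd κ μ L (n + 1) / 2 * nm (Pu g (n + 1) (Po (fun a => z a t))) ^ 2 ≤
        (∑' a, χu g (n + 1) a * (dF ℓ (Sd κ μ L) g a * z a t ^ 2)) -
          ℓ (n + 1) * nm (Pu g (n + 1) (fun a => z a t)) ^ 2 := by linarith
    have h2 := Y_static hK hs hnt n (half_pos hS0) hD'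
    rw [Yt_eq hs hnt, Real.sqrt_sq (nm_nn _), Ut_eq, Uw_eq, loc_eq, At_eq, wz_eq]
    have e1 : ∀ u : ℝ, u / (Sd κ μ L (n + 1) / 2) = 2 * (u / Sd κ μ L (n + 1)) := by
      intro u
      have := hS0.ne'
      field_simp
    rw [e1, e1] at h2
    refine le_trans (le_of_eq ?_) (le_trans (sub_le_sub_right h2
      (2 * (ℓ (n + 1) * nm (Pu g (n + 1) (fun a => z a t)) ^ 2))) (le_of_eq ?_))
    · ring
    · show _ = _
      simp only [ee]
      ring
  · intro k₀ T' hT'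
    obtain ⟨K, hK10⟩ := hr k₀ T' hT'
    refine ⟨√K + √K, fun t ht n => ?_⟩
    obtain ⟨h1, h2⟩ := hK10 t ht
    have hLn := L_nn hs n
    have htT : t ∈ Ico 0 T := ⟨ht.1, ht.2.trans_lt hT'⟩
    rw [wz_eq, mul_add]
    refine add_le_add ?_ ?_
    · have h3 : (rI L g (Sum.inl n) ^ k₀ * z (Sum.inl n) t) ^ 2 ≤ K :=
        (h1.le_tsum (Sum.inl n) fun _ _ => sq_nonneg _).trans h2
      have h4 := Real.abs_le_sqrt h3
      rw [abs_mul, abs_of_nonneg (by show 0 ≤ L n ^ k₀; positivity)] at h4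
      exact h4
    · have h3 : (L n ^ k₀ * ww g (fun a => z a t) n) ^ 2 ≤ K := by
        refine le_trans ?_ h2
        unfold ww nk
        rw [mul_pow, nm_sq, ← tsum_mul_left]
        refine (((((hn t htT).po hs).pg hs n).sq hs).mul_left _).tsum_le_tsum (fun a => ?_) h1
        cases a with
        | inl k =>
          have e1 : Pg g n (Po (fun a => z a t)) (Sum.inl k) = 0 := by simp [Pg, Po]
          rw [e1]
          have := sq_nonneg (rI L g (Sum.inl k) ^ k₀ * z (Sum.inl k) t)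
          simpa using this
        | inr j =>
          show (L n ^ k₀) ^ 2 * (if g j = n then z (Sum.inr j) t else 0) ^ 2 ≤
            (L (g j) ^ k₀ * z (Sum.inr j) t) ^ 2
          split_ifs with hj
          · rw [hj, mul_pow]
          · have := sq_nonneg (L (g j) ^ k₀ * z (Sum.inr j) t)
            simpa using this
      have h4 := Real.abs_le_sqrt h3
      rwa [abs_of_nonneg (mul_nonneg (pow_nonneg hLn _) (ww_nn _ _))] at h4
  · intro t ht
    rw [Yt_eq hs (hn t ht)]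
    have e1 : Pu g 0 (fun a => z a t) = fun a => z a t := by
      funext a
      exact if_pos (by omega)
    rw [e1, nm_sq]
    exact hEle t ht
  · intro n
    unfold wz
    have e : ∀ j : J, (if g j = n then z (Sum.inr j) 0 ^ 2 else 0) = 0 := by
      intro j
      rw [hi.2.2 j]
      simp
    rw [tsum_congr e, tsum_zero, Real.sqrt_zero]

end Pool.Agent.Y710.EP
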