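import Pool.Agent.Y710.EP.P3

/-!
Job S_PERT4 of the project NS/F (adapted from Pool/Agent/Y704/NE): the table, and the tail energies at a fixed time.
-/

open Set Filter Topology

set_option autoImplicit false
set_option linter.all false

namespace Pool.Agent.Y710.EP

open Pool.Agent.Y5.D Pool.Agent.Y5.E Pool.Agent.Y5.F Pool.Agent.Y8.EP

variable {J : Type} {g : J → ℕ} {κ μ lam Λ M : ℝ} {L C ℓ : ℕ → ℝ} {B : ℕ → ℕ → ℝ}
  {c : Ix J → Ix J → Ix J → ℝ}

/-! ### The table -/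

theorem tab_sum (hK : Ker g Λ M L C B c) (hs : Sq5 κ μ lam Λ M L C ℓ B) {z : Ix J → ℝ}
    (hx : Summable fun i : ℕ => z (Sum.inl i) ^ 2) (n : ℕ) :
    ∑' p : ℕ × ℕ, c (Sum.inl n) (Sum.inl p.1) (Sum.inl p.2) * z (Sum.inl p.1) * z (Sum.inl p.2) =
      vf3 L C ℓ B (fun m => z (Sum.inl m)) n + ℓ n * z (Sum.inl n) := by
  classical
  set x : ℕ → ℝ := fun m => z (Sum.inl m) with hxd
  let P1 : ℕ × ℕ → ℝ := fun p => if p.1 = n ∧ p.2 < n then L p.2 * B p.2 n * x p.1 * x p.2 else 0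
  let P2 : ℕ × ℕ → ℝ := fun p => if p.1 = p.2 ∧ n < p.1 then -(L n * B n p.1) * x p.1 * x p.2 else 0
  let P3 : ℕ × ℕ → ℝ := fun p => if p.1 = p.2 ∧ n = p.1 + 1 then L p.1 * C p.1 * x p.1 * x p.2 else 0
  let P4 : ℕ × ℕ → ℝ := fun p => if p.1 = n ∧ p.2 = n + 1 then -(L n * C n) * x p.1 * x p.2 else 0
  have hP1 : HasSum P1 (∑ j ∈ Finset.range n, L j * B j n * x n * x j) := by
    have h1 : HasSum P1 (∑ p ∈ ({n} : Finset ℕ) ×ˢ Finset.range n, P1 p) := by
      refine hasSum_sum_of_ne_finset_zero fun p hp => ?_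
      rw [Finset.mem_product, Finset.mem_singleton, Finset.mem_range] at hp
      exact if_neg hp
    rw [Finset.sum_product, Finset.sum_singleton] at h1
    have e : ∑ j ∈ Finset.range n, P1 (n, j) = ∑ j ∈ Finset.range n, L j * B j n * x n * x j := by
      refine Finset.sum_congr rfl fun j hj => ?_
      exact if_pos ⟨rfl, Finset.mem_range.1 hj⟩
    rwa [e] at h1
  have hP2 : HasSum P2 (-(L n * ∑' m : ℕ, B n (n + 1 + m) * x (n + 1 + m) ^ 2)) := by
    have hi : Function.Injective (fun m : ℕ => (n + 1 + m, n + 1 + m)) := by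
      intro a b hab
      have := congrArg Prod.fst hab
      simp only at this
      omega
    rw [← hi.hasSum_iff]
    · have h1 : Summable fun m : ℕ => B n (n + 1 + m) * x (n + 1 + m) ^ 2 := by
        have h2 : Summable fun m : ℕ => 1001 / 1000 * x (n + 1 + m) ^ 2 :=
          (hx.comp_injective (i := fun m => n + 1 + m) (fun a b h => by simpa using h)).mul_left _
        refine Summable.of_nonneg_of_le (fun m => ?_) (fun m => ?_) h2
        · have := hs.B_lo n (n + 1 + m) (by omega)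
          have h3 : 0 ≤ B n (n + 1 + m) := by linarith
          positivity
        · exact mul_le_mul_of_nonneg_right (hs.B_hi n (n + 1 + m) (by omega)) (sq_nonneg _)
      have h2 := (h1.hasSum.mul_left (L n)).neg
      refine h2.congr_fun ?_
      intro m
      show (if n + 1 + m = n + 1 + m ∧ n < n + 1 + m then _ else _) = _
      rw [if_pos ⟨rfl, by omega⟩]
      ring
    · intro p hp
      refine if_neg ?_
      rintro ⟨h1, h2⟩
      apply hp
      refine ⟨p.1 - (n + 1), ?_⟩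
      refine Prod.ext ?_ ?_
      · show n + 1 + (p.1 - (n + 1)) = p.1
        omega
      · show n + 1 + (p.1 - (n + 1)) = p.2
        omega
  have hP3 : HasSum P3 (if n = 0 then 0 else L (n - 1) * C (n - 1) * x (n - 1) ^ 2) := by
    by_cases h0 : n = 0
    · rw [if_pos h0]
      refine hasSum_zero.congr_fun ?_
      intro p
      refine (if_neg ?_)
      rintro ⟨_, h⟩
      omega
    · rw [if_neg h0]
      have h1 : HasSum P3 (P3 (n - 1, n - 1)) := by
        refine hasSum_single _ fun p hp => ?_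
        refine if_neg ?_
        rintro ⟨h1, h2⟩
        apply hp
        refine Prod.ext ?_ ?_
        · show p.1 = n - 1
          omega
        · show p.2 = n - 1
          omega
      have e : P3 (n - 1, n - 1) = L (n - 1) * C (n - 1) * x (n - 1) ^ 2 := by
        show (if n - 1 = n - 1 ∧ n = n - 1 + 1 then _ else _) = _
        rw [if_pos ⟨rfl, by omega⟩]
        ring
      rwa [e] at h1
  have hP4 : HasSum P4 (-(L n * C n * x n * x (n + 1))) := by
    have h1 : HasSum P4 (P4 (n, n + 1)) := by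
      refine hasSum_single _ fun p hp => ?_
      refine if_neg ?_
      rintro ⟨h1, h2⟩
      exact hp (Prod.ext h1 h2)
    have e : P4 (n, n + 1) = -(L n * C n * x n * x (n + 1)) := by
      show (if n = n ∧ n + 1 = n + 1 then _ else _) = _
      rw [if_pos ⟨rfl, rfl⟩]
      ring
    rwa [e] at h1
  have hsum := ((hP1.add hP2).add hP3).add hP4
  have hfun : (fun p : ℕ × ℕ => c (Sum.inl n) (Sum.inl p.1) (Sum.inl p.2) * z (Sum.inl p.1) *
      z (Sum.inl p.2)) = fun p => P1 p + P2 p + P3 p + P4 p := by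
    funext p
    rw [hK.tab]
    simp only [P1, P2, P3, P4, hxd]
    split_ifs <;> ring
  rw [hfun, hsum.tsum_eq]
  unfold vf3
  rw [Finset.mul_sum]
  have e : ∑ j ∈ Finset.range n, L j * B j n * x n * x j = ∑ i ∈ Finset.range n, x n * (L i * B i n * x i) :=
    Finset.sum_congr rfl fun j _ => by ring
  rw [e]
  ring

/-- the table, as a trilinear form -/
theorem tl_main (hK : Ker g Λ M L C B c) (hs : Sq5 κ μ lam Λ M L C ℓ B) {z α : Ix J → ℝ}
    (hx : Summable fun i : ℕ => z (Sum.inl i) ^ 2) {n : ℕ}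
    (h1 : ∀ i, i ≠ Sum.inl n → α i = 0) (h2 : α (Sum.inl n) = 1) :
    tl c α (Pm z) (Pm z) = vf3 L C ℓ B (fun m => z (Sum.inl m)) n + ℓ n * z (Sum.inl n) := by
  rw [← tab_sum hK hs hx n, tl_eq]
  let ι : ℕ × ℕ → Ix J × Ix J × Ix J := fun p => (Sum.inl n, Sum.inl p.1, Sum.inl p.2)
  have hι : Function.Injective ι := by
    intro a b hab
    have h3 : (Sum.inl a.1 : Ix J) = Sum.inl b.1 := congrArg (fun t => t.2.1) hab
    have h4 : (Sum.inl a.2 : Ix J) = Sum.inl b.2 := congrArg (fun t => t.2.2) hab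
    exact Prod.ext (Sum.inl.inj h3) (Sum.inl.inj h4)
  rw [← hι.tsum_eq]
  · refine tsum_congr fun p => ?_
    show c (Sum.inl n) (Sum.inl p.1) (Sum.inl p.2) * α (Sum.inl n) * z (Sum.inl p.1) *
      z (Sum.inl p.2) = _
    rw [h2, mul_one]
  · rintro ⟨i, a, b⟩ ht
    by_cases hi : i = Sum.inl n
    · cases a with
      | inl a =>
        cases b with
        | inl b => exact ⟨(a, b), by rw [hi]⟩
        | inr b => exfalso; apply ht; simp [tm, Pm]
      | inr a => exfalso; apply ht; simp [tm, Pm]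
    · exfalso
      apply ht
      simp [tm, h1 i hi]

/-- the forcing of the next mode -/
theorem tl_force (hK : Ker g Λ M L C B c) (z : Ix J → ℝ) (n : ℕ) :
    tl c (Pg g (n + 1) (Pm z)) (Pl g (n + 1) (Pm z)) (Pl g (n + 1) (Pm z)) =
      z (Sum.inl (n + 1)) * (L n * C n * z (Sum.inl n) ^ 2) := by
  have vP : ∀ i, Pg g (n + 1) (Pm z) (Sum.inl i) = if i = n + 1 then z (Sum.inl i) else 0 :=
    fun i => rfl
  have vL : ∀ i, Pl g (n + 1) (Pm z) (Sum.inl i) = if i < n + 1 then z (Sum.inl i) else 0 :=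
    fun i => rfl
  rw [tl_eq, tsum_eq_single (Sum.inl (n + 1), Sum.inl n, Sum.inl n)]
  · show c (Sum.inl (n + 1)) (Sum.inl n) (Sum.inl n) * Pg g (n + 1) (Pm z) (Sum.inl (n + 1)) *
      Pl g (n + 1) (Pm z) (Sum.inl n) * Pl g (n + 1) (Pm z) (Sum.inl n) = _
    rw [vP, vL, hK.tab, if_neg (by omega), if_neg (by omega), if_pos (by omega), if_neg (by omega),
      if_pos rfl, if_pos (by omega)]
    ring
  · rintro ⟨i, a, b⟩ ht
    show c i a b * Pg g (n + 1) (Pm z) i * Pl g (n + 1) (Pm z) a * Pl g (n + 1) (Pm z) b = 0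
    cases i with
    | inr i => simp [Pg, Pm]
    | inl i =>
      cases a with
      | inr a => simp [Pl, Pm]
      | inl a =>
        cases b with
        | inr b => simp [Pl, Pm]
        | inl b =>
          rw [vP, vL, vL, hK.tab]
          by_cases hi : i = n + 1
          · by_cases ha : a < n + 1
            · by_cases hb : b < n + 1
              · have hab : ¬(a = n ∧ b = n) := by
                  rintro ⟨rfl, rfl⟩
                  exact ht (by rw [hi])
                rw [if_neg (by omega), if_neg (by omega), if_neg (by omega), if_neg (by omega)]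
                ring
              · rw [if_neg hb]; ring
            · rw [if_neg ha]; ring
          · rw [if_neg hi]; ring

/-- growth of the tail by the stretching of the low main modes -/
theorem tl_str (hK : Ker g Λ M L C B c) (hs : Sq5 κ μ lam Λ M L C ℓ B) {z : Ix J → ℝ} (hz : Nice g L z)
    {m q : ℕ} (hq : q < m) :
    |tl c (Pg g q (Pm z)) (Pu g m (Pm z)) (Pu g m (Pm z))| ≤
      1001 / 1000 * (L q * |z (Sum.inl q)|) * nm (Pu g m (Pm z)) ^ 2 := by
  rw [tl_eq]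
  let ι : ℕ → Ix J × Ix J × Ix J := fun i => (Sum.inl q, Sum.inl i, Sum.inl i)
  have hι : Function.Injective ι := by
    intro a b hab
    have h3 : (Sum.inl a : Ix J) = Sum.inl b := congrArg (fun t => t.2.1) hab
    exact Sum.inl.inj h3
  have hval : ∀ i, tm c (Pg g q (Pm z)) (Pu g m (Pm z)) (Pu g m (Pm z)) (ι i) =
      if m ≤ i then -(L q * B q i) * z (Sum.inl q) * z (Sum.inl i) * z (Sum.inl i) else 0 := by
    intro i
    show c (Sum.inl q) (Sum.inl i) (Sum.inl i) * (if q = q then z (Sum.inl q) else 0) *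
      (if m ≤ i then z (Sum.inl i) else 0) * (if m ≤ i then z (Sum.inl i) else 0) = _
    rw [if_pos rfl]
    by_cases hi : m ≤ i
    · rw [if_pos hi, if_pos hi, hK.tab, if_neg (by omega), if_pos (by omega), if_neg (by omega),
        if_neg (by omega)]
      ring
    · rw [if_neg hi, if_neg hi]; ring
  have hsum : Summable (fun i : ℕ => Pu g m (Pm z) (Sum.inl i) ^ 2) :=
    (((hz.pm hs).pu hs m).sq hs).comp_injective Sum.inl_injective
  have hle : ∑' i : ℕ, Pu g m (Pm z) (Sum.inl i) ^ 2 ≤ nm (Pu g m (Pm z)) ^ 2 := by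
    rw [nm_sq]
    exact tsum_comp_le_tsum_of_inj (((hz.pm hs).pu hs m).sq hs) (fun a => sq_nonneg _)
      (i := Sum.inl) Sum.inl_injective
  rw [← hι.tsum_eq]
  · have hb : ∀ i, ‖tm c (Pg g q (Pm z)) (Pu g m (Pm z)) (Pu g m (Pm z)) (ι i)‖ ≤
        1001 / 1000 * (L q * |z (Sum.inl q)|) * Pu g m (Pm z) (Sum.inl i) ^ 2 := by
      intro i
      rw [hval i]
      have e : Pu g m (Pm z) (Sum.inl i) = if m ≤ i then z (Sum.inl i) else 0 := rfl
      rw [e]
      by_cases hi : m ≤ i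
      · rw [if_pos hi, if_pos hi, Real.norm_eq_abs, abs_mul, abs_mul, abs_mul, abs_neg, abs_mul]
        have h1 := hs.B_lo q i (by omega)
        have h2 := hs.B_hi q i (by omega)
        have h3 : |B q i| ≤ 1001 / 1000 := by rw [abs_of_nonneg (by linarith)]; exact h2
        rw [abs_of_nonneg (L_nn hs q)]
        have h4 := L_nn hs q
        calc L q * |B q i| * |z (Sum.inl q)| * |z (Sum.inl i)| * |z (Sum.inl i)|
            ≤ L q * (1001 / 1000) * |z (Sum.inl q)| * |z (Sum.inl i)| * |z (Sum.inl i)| := by gcongr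
          _ = 1001 / 1000 * (L q * |z (Sum.inl q)|) * (|z (Sum.inl i)| ^ 2) := by ring
          _ = _ := by rw [sq_abs]
      · rw [if_neg hi, if_neg hi]; simp
    have h5 := tsum_of_norm_bounded (hsum.mul_left (1001 / 1000 * (L q * |z (Sum.inl q)|))).hasSum hb
    rw [tsum_mul_left, Real.norm_eq_abs] at h5
    refine h5.trans ?_
    have h4 := L_nn hs q
    gcongr
  · rintro ⟨i, a, b⟩ ht
    unfold tm at ht
    cases i with
    | inr i => exfalso; apply ht; simp [Pg, Pm]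
    | inl i =>
      cases a with
      | inr a => exfalso; apply ht; simp [Pu, Pm]
      | inl a =>
        cases b with
        | inr b => exfalso; apply ht; simp [Pu, Pm]
        | inl b =>
          by_cases hi : i = q
          · by_cases ha : m ≤ a
            · by_cases hb : m ≤ b
              · by_cases hab : a = b
                · exact ⟨a, by rw [hi, ← hab]⟩
                · exfalso
                  apply ht
                  subst hi
                  simp only [hK.tab]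
                  rw [if_neg (by omega), if_neg (by omega), if_neg (by omega), if_neg (by omega)]
                  ring
              · exfalso; apply ht
                have : Pu g m (Pm z) (Sum.inl b) = 0 := if_neg hb
                simp only [this, mul_zero]
            · exfalso; apply ht
              have : Pu g m (Pm z) (Sum.inl a) = 0 := if_neg ha
              simp only [this, mul_zero, zero_mul]
          · exfalso; apply ht
            have : Pg g q (Pm z) (Sum.inl i) = 0 := if_neg hi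
            simp only [this, mul_zero, zero_mul]

/-- low advected field, high output -/
theorem EH (hK : Ker g Λ M L C B c) (hs : Sq5 κ μ lam Λ M L C ℓ B) {α β γ : Ix J → ℝ}
    (hα : Nice g L α) (hβ : Nice g L β) (hγ : Nice g L γ) (m : ℕ) (hα' : InUp g m α)
    (hβ' : InUp g m β) {b : ℕ → ℝ} (hb : ∀ p, nm (Pg g p γ) ≤ b p) :
    |tl c α β (Pl g m γ)| ≤ 3 * (M * (sU L b m * (nm α * nm β))) := by
  rw [tl_swap hK, abs_neg, tl_sum1 hK hs (hγ.pl hs m) hβ hα (s := Finset.range m)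
    (fun a ha => Pl_in m γ a (by simpa using ha))]
  refine (Finset.abs_sum_le_sum_abs _ _).trans ?_
  have h1 : ∀ q ∈ Finset.range m, |tl c (Pg g q (Pl g m γ)) β α| ≤
      3 * (M * ((L q * b q) * (nm α * nm β))) := by
    intro q hq
    rw [Finset.mem_range] at hq
    refine (ED hK hs ((hγ.pl hs m).pg hs q) hβ hα (Pg_in q _)
      (fun i hi => hβ' i (by omega)) (fun i hi => hα' i (by omega))).trans ?_
    have h2 := (pg_pl_le hs hγ q m).trans (hb q)
    have h3 := M_nn hs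
    have h4 := L_nn hs q
    have h5 := nm_nn α
    have h6 := nm_nn β
    calc 3 * (M * (nm (Pg g q (Pl g m γ)) * (L q * (nm β * nm α)))) ≤
        3 * (M * (b q * (L q * (nm β * nm α)))) := by gcongr
      _ = _ := by ring
  refine (Finset.sum_le_sum h1).trans (le_of_eq ?_)
  unfold sU
  rw [← Finset.mul_sum, ← Finset.mul_sum, ← Finset.sum_mul]

theorem EHm (hK : Ker g Λ M L C B c) (hs : Sq5 κ μ lam Λ M L C ℓ B) {z : Ix J → ℝ} (hz : Nice g L z)
    (m : ℕ) :
    |tl c (Pu g m (Pm z)) (Pu g m (Pm z)) (Pl g m (Pm z))| ≤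
      1001 / 1000 * (sU L (fun q => |z (Sum.inl q)|) m * nm (Pu g m (Pm z)) ^ 2) := by
  have hzm := hz.pm hs
  rw [tl_swap hK, abs_neg, tl_sum1 hK hs (hzm.pl hs m) (hzm.pu hs m) (hzm.pu hs m)
    (s := Finset.range m) (fun a ha => Pl_in m _ a (by simpa using ha))]
  refine (Finset.abs_sum_le_sum_abs _ _).trans ?_
  have h1 : ∀ q ∈ Finset.range m, |tl c (Pg g q (Pl g m (Pm z))) (Pu g m (Pm z)) (Pu g m (Pm z))| ≤
      1001 / 1000 * ((L q * |z (Sum.inl q)|) * nm (Pu g m (Pm z)) ^ 2) := by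
    intro q hq
    rw [Finset.mem_range] at hq
    have e : Pg g q (Pl g m (Pm z)) = Pg g q (Pm z) := by
      funext a
      unfold Pg Pl
      by_cases ha : gr g a = q
      · rw [if_pos ha, if_pos ha, if_pos (by omega)]
      · rw [if_neg ha, if_neg ha]
    rw [e]
    refine (tl_str hK hs hz hq).trans (le_of_eq ?_)
    ring
  refine (Finset.sum_le_sum h1).trans (le_of_eq ?_)
  unfold sU
  rw [← Finset.mul_sum, ← Finset.sum_mul]

theorem abs1 {M U W Y S : ℝ} (hM1 : 1 ≤ M) (hS : 0 < S) :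
    12 * (M * (U * (W * Y))) ≤ S * W ^ 2 + 2 * (10 ^ 6 * M ^ 4 * (U ^ 2 / S)) * Y ^ 2 := by
  have h4 : 0 ≤ (S * W - 6 * M * (U * Y)) ^ 2 / S := by positivity
  have h5 : (S * W - 6 * M * (U * Y)) ^ 2 / S =
      S * W ^ 2 + 36 * M ^ 2 * (U ^ 2 / S) * Y ^ 2 - 12 * (M * (U * (W * Y))) := by
    field_simp
    ring
  have hM2 : M ^ 2 ≤ M ^ 4 := pow_le_pow_right₀ hM1 (by norm_num)
  have h8 : 36 * M ^ 2 ≤ 2 * (10 ^ 6 * M ^ 4) := by
    have := sq_nonneg M
    linarith
  have h7 : 36 * M ^ 2 * (U ^ 2 / S) * Y ^ 2 ≤ 2 * (10 ^ 6 * M ^ 4) * (U ^ 2 / S) * Y ^ 2 := by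
    gcongr
  have h9 : 2 * (10 ^ 6 * M ^ 4) * (U ^ 2 / S) * Y ^ 2 =
    2 * (10 ^ 6 * M ^ 4 * (U ^ 2 / S)) * Y ^ 2 := by ring
  linarith

theorem abs2 {M w W A e S Ln : ℝ} (hM1 : 1 ≤ M) (hA : 0 ≤ A) (he : 0 ≤ e)
    (hw : w ≤ W) (hS : 0 < S) (hLn : 0 ≤ Ln) :
    4 * (M * (w * (Ln * A * e))) ≤
      S * W ^ 2 + 10 ^ 6 * M ^ 4 * (Ln ^ 2 / S * (A ^ 2 * e ^ 2)) := by
  have hM : 0 ≤ M := zero_le_one.trans hM1
  have h2 : 4 * (M * (w * (Ln * A * e))) ≤ 4 * (M * (W * (Ln * A * e))) := by gcongr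
  have h3 : 4 * (M * (W * (Ln * A * e))) ≤ S * W ^ 2 + 4 * M ^ 2 * (Ln ^ 2 / S * (A ^ 2 * e ^ 2)) := by
    have h4 : 0 ≤ (S * W - 2 * M * (Ln * (A * e))) ^ 2 / S := by positivity
    have h5 : (S * W - 2 * M * (Ln * (A * e))) ^ 2 / S =
      S * W ^ 2 + 4 * M ^ 2 * (Ln ^ 2 / S * (A ^ 2 * e ^ 2)) - 4 * (M * (W * (Ln * A * e))) := by
      field_simp
      ring
    linarith
  have h5 : M ^ 2 ≤ M ^ 4 := pow_le_pow_right₀ hM1 (by norm_num)
  have h8 : 4 * M ^ 2 ≤ 10 ^ 6 * M ^ 4 := by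
    have := sq_nonneg M
    linarith
  have h7 : 4 * M ^ 2 * (Ln ^ 2 / S * (A ^ 2 * e ^ 2)) ≤
      10 ^ 6 * M ^ 4 * (Ln ^ 2 / S * (A ^ 2 * e ^ 2)) := by
    gcongr
  linarith

theorem abs3 {M x l Y V : ℝ} (hM1 : 1 ≤ M) (hx : 0 ≤ x) (hl : 0 ≤ l) (hxY : x ≤ Y) (hV : 0 ≤ V) :
    2 * (M * (x * l)) + 2 * (M * (x * l)) ≤ 2 * (10 ^ 6 * M ^ 4 * l) * Y ∧
    2 * (3 * (M * (V * (Y * Y)))) ≤ 2 * (10 ^ 6 * M ^ 4 * V) * Y ^ 2 := by
  have hM : 0 ≤ M := zero_le_one.trans hM1
  have h5 : M ≤ M ^ 4 := le_self_pow₀ hM1 (by norm_num)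
  have hN : 6 * M ≤ 2 * (10 ^ 6 * M ^ 4) := by linarith
  have hN' : 4 * M ≤ 2 * (10 ^ 6 * M ^ 4) := by linarith
  have hY : 0 ≤ Y := hx.trans hxY
  constructor
  · calc 2 * (M * (x * l)) + 2 * (M * (x * l)) = 4 * M * (x * l) := by ring
      _ ≤ 2 * (10 ^ 6 * M ^ 4) * (Y * l) := by gcongr
      _ = _ := by ring
  · calc 2 * (3 * (M * (V * (Y * Y)))) = 6 * M * (V * Y ^ 2) := by ring
      _ ≤ 2 * (10 ^ 6 * M ^ 4) * (V * Y ^ 2) := by gcongr
      _ = _ := by ring

/-- the tail energy -/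
theorem Y_static (hK : Ker g Λ M L C B c) (hs : Sq5 κ μ lam Λ M L C ℓ B) {z : Ix J → ℝ}
    (hz : Nice g L z) (n : ℕ) {S : ℝ} (hS : 0 < S) {D : ℝ}
    (hD : S * nm (Pu g (n + 1) (Po z)) ^ 2 ≤ D) :
    -(2 * D) + 2 * tl c (Pu g (n + 1) z) z z ≤
      2 * (C n * L n * z (Sum.inl n) ^ 2 + 10 ^ 6 * M ^ 4 * lc L g z (n + 1)) *
        nm (Pu g (n + 1) z)
      + 2 * (1001 / 1000 * sU L (fun q => |z (Sum.inl q)|) (n + 1) +
        10 ^ 6 * M ^ 4 * sU L (ww g z) (n + 1) +
        10 ^ 6 * M ^ 4 * (sU L (fun q => |z (Sum.inl q)|) (n + 1) ^ 2 / S)) *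
          nm (Pu g (n + 1) z) ^ 2
      + 10 ^ 6 * M ^ 4 * (L n ^ 2 / S * (sA (Λ / lam) (ee g z) (n + 1) ^ 2 * ee g z n ^ 2)) := by
  have hM := M_nn hs
  have hM1 := hs.M_one
  have hL := L_nn hs n
  have hLm := L_nn hs (n + 1)
  have hzp := hz.po hs
  have hzm := hz.pm hs
  set m := n + 1 with hm
  set Y := nm (Pu g m z) with hYd
  set W := nm (Pu g m (Po z)) with hWd
  set U := sU L (fun q => |z (Sum.inl q)|) m with hUd
  set V := sU L (ww g z) m with hVd
  set A := sA (Λ / lam) (ee g z) m with hAd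
  have hY : 0 ≤ Y := nm_nn _
  have hW : 0 ≤ W := nm_nn _
  have hWY : W ≤ Y := W_le_Y hs hz m
  have hXY : nm (Pu g m (Pm z)) ≤ Y := X_le_Y hs hz m
  have hX0 := nm_nn (Pu g m (Pm z))
  have hU : 0 ≤ U := sU_nn hs (fun p => abs_nonneg _) m
  have hV : 0 ≤ V := sU_nn hs (fun p => ww_nn z p) m
  have hA : 0 ≤ A := sA_nn hs (fun p => ee_nn z p) m
  have hE := ee_nn (g := g) z n
  have hlc := lc_nn (g := g) hs z m
  have hux := hz.pu hs m
  have hlx := hz.pl hs m
  -- cancellation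
  have e1 : tl c (Pu g m z) z z = tl c (Pu g m z) (Pl g m z) (Pl g m z) +
      tl c (Pu g m z) (Pu g m z) (Pl g m z) := by
    rw [tl_split3 hK hs hux hz hz m, tl_self hK, add_zero, tl_split2 hK hs hux hz hlx m]
  -- the first term
  have e2 : tl c (Pu g m z) (Pl g m z) (Pl g m z) =
      tl c (Pg g m (Pm z)) (Pl g m z) (Pl g m z) + tl c (Pg g m (Po z)) (Pl g m z) (Pl g m z) := by
    rw [← tl_c1 hK hs (hzm.pg hs m) (hzp.pg hs m) hlx hlx (α := Pg g m z) (pg_mo m z)]
    refine tl_congr fun i a b hc => ?_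
    unfold Pu Pg Pl
    by_cases ha : gr g a < m
    · by_cases hb : gr g b < m
      · have h2 := (hK.near _ _ _ hc).1
        by_cases hi : gr g i = m
        · rw [if_pos hi, if_pos (by omega)]
        · rw [if_neg hi, if_neg (by omega)]
      · rw [if_neg hb]; ring
    · rw [if_neg ha]; ring
  have hαm : Nice g L (Pg g m (Pm z)) := hzm.pg hs m
  have hαs : ∀ i, i ≠ Sum.inl m → Pg g m (Pm z) i = 0 := by
    rintro (i | j) hi
    · have : i ≠ m := fun h => hi (by rw [h])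
      simp [Pg, gr, this]
    · simp [Pg, Pm]
  have e3 : tl c (Pg g m (Pm z)) (Pl g m z) (Pl g m z) =
      tl c (Pg g m (Pm z)) (Pl g m z) (Pl g m (Po z)) +
      tl c (Pg g m (Pm z)) (Pl g m (Po z)) (Pl g m (Pm z)) +
      z (Sum.inl m) * (L n * C n * z (Sum.inl n) ^ 2) := by
    rw [tl_c3 hK hs hαm hlx (hzm.pl hs m) (hzp.pl hs m) (pl_mo m z),
      tl_c2 hK hs hαm (hzm.pl hs m) (hzp.pl hs m) (hzm.pl hs m) (pl_mo m z), tl_force hK z n]
    ring
  obtain ⟨a1, a2⟩ := EAl hK hs hz hαm hαs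
  rw [nm_pm] at a1 a2
  have hxm : |z (Sum.inl m)| ≤ Y := by
    rw [← nm_pm (g := g) z m]
    refine le_trans ?_ hXY
    refine nm_mono hs (hzm.pu hs m) fun a => ?_
    unfold Pg Pu
    by_cases ha : gr g a = m
    · rw [if_pos ha, if_pos (by omega)]
    · rw [if_neg ha, abs_zero]; exact abs_nonneg _
  have a3 : |tl c (Pg g m (Po z)) (Pl g m z) (Pl g m z)| ≤
      2 * (M * (ww g z m * (L n * A * ee g z n))) :=
    EA hK hs (hzp.pg hs m) hlx hlx (Pg_in _ _) (Pl_in _ _) (Pl_in _ _) (b := ee g z)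
        (fun p => (pg_pl_le hs hz p _).trans (grp_le hs hz p))
        (fun p => (pg_pl_le hs hz p _).trans (grp_le hs hz p))
  have hwW : ww g z m ≤ W := by
    refine nm_mono hs (hzp.pu hs m) fun a => ?_
    unfold Pg Pu
    by_cases ha : gr g a = m
    · rw [if_pos ha, if_pos (by omega)]
    · rw [if_neg ha, abs_zero]; exact abs_nonneg _
  -- the second term
  have e4 : tl c (Pu g m z) (Pu g m z) (Pl g m z) =
      tl c (Pu g m z) (Pu g m z) (Pl g m (Po z)) +
      tl c (Pu g m (Po z)) (Pu g m z) (Pl g m (Pm z)) +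
      tl c (Pu g m (Pm z)) (Pu g m (Po z)) (Pl g m (Pm z)) +
      tl c (Pu g m (Pm z)) (Pu g m (Pm z)) (Pl g m (Pm z)) := by
    rw [tl_c3 hK hs hux hux (hzm.pl hs m) (hzp.pl hs m) (pl_mo m z),
      tl_c1 hK hs (hzm.pu hs m) (hzp.pu hs m) hux (hzm.pl hs m) (pu_mo m z),
      tl_c2 hK hs (hzm.pu hs m) (hzm.pu hs m) (hzp.pu hs m) (hzm.pl hs m) (pu_mo m z)]
    ring
  have b1 := EH hK hs hux hux hzp m (Pu_in _ _) (Pu_in _ _) (b := ww g z) (fun p => le_rfl)
  have b2 := EH hK hs (hzp.pu hs m) hux hzm m (Pu_in _ _) (Pu_in _ _)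
    (b := fun q => |z (Sum.inl q)|) (fun p => le_of_eq (nm_pm z p))
  have b3 := EH hK hs (hzm.pu hs m) (hzp.pu hs m) hzm m (Pu_in _ _) (Pu_in _ _)
    (b := fun q => |z (Sum.inl q)|) (fun p => le_of_eq (nm_pm z p))
  have b4 := EHm hK hs hz m
  rw [← hYd, ← hVd] at b1
  rw [← hYd, ← hWd, ← hUd] at b2
  rw [← hWd, ← hUd] at b3
  rw [← hUd] at b4
  have b3' : 3 * (M * (U * (nm (Pu g m (Pm z)) * W))) ≤ 3 * (M * (U * (W * Y))) := by
    rw [mul_comm W Y]; gcongr
  have b4' : 1001 / 1000 * (U * nm (Pu g m (Pm z)) ^ 2) ≤ 1001 / 1000 * (U * Y ^ 2) := by gcongr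
  -- absorption
  have c1 := abs1 (U := U) (W := W) (Y := Y) hM1 hS
  have c2 := abs2 hM1 hA hE hwW hS hL
  have hforce : 2 * (z (Sum.inl m) * (L n * C n * z (Sum.inl n) ^ 2)) ≤
      2 * (C n * L n * z (Sum.inl n) ^ 2) * Y := by
    have hC : 0 ≤ C n := (mul_nonneg hs.κ0.le (Real.exp_pos _).le).trans (hs.C_lo n)
    have h2 : z (Sum.inl m) ≤ Y := (le_abs_self _).trans hxm
    have h3 : 0 ≤ L n * C n * z (Sum.inl n) ^ 2 := by positivity
    calc 2 * (z (Sum.inl m) * (L n * C n * z (Sum.inl n) ^ 2)) ≤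
        2 * (Y * (L n * C n * z (Sum.inl n) ^ 2)) := by gcongr
      _ = _ := by ring
  obtain ⟨d1, d2⟩ := abs3 hM1 (abs_nonneg (z (Sum.inl m))) hlc hxm hV
  rw [e1, e2, e3, e4]
  have := (abs_le.1 a1).2
  have := (abs_le.1 a2).2
  have := (abs_le.1 a3).2
  have := (abs_le.1 b1).2
  have := (abs_le.1 b2).2
  have := (abs_le.1 (b3.trans b3')).2
  have := (abs_le.1 (b4.trans b4')).2
  have q1 : 2 * (C n * L n * z (Sum.inl n) ^ 2 + 10 ^ 6 * M ^ 4 * lc L g z m) * Y =
    2 * (C n * L n * z (Sum.inl n) ^ 2) * Y + 2 * (10 ^ 6 * M ^ 4 * lc L g z m) * Y := by ring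
  have q2 : 2 * (1001 / 1000 * U + 10 ^ 6 * M ^ 4 * V + 10 ^ 6 * M ^ 4 * (U ^ 2 / S)) * Y ^ 2 =
    2 * (1001 / 1000 * (U * Y ^ 2)) + 2 * (10 ^ 6 * M ^ 4 * V) * Y ^ 2 +
      2 * (10 ^ 6 * M ^ 4 * (U ^ 2 / S)) * Y ^ 2 := by
    ring
  rw [q1, q2]
  linarith

end Pool.Agent.Y710.EP
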