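import Pool.Agent.Y710.EP.P1

/-!
Job S_PERT4 of the project NS/F (adapted from Pool/Agent/Y704/NE): the four estimates of the trilinear form (output in one group).
-/

open Set Filter Topology

set_option autoImplicit false
set_option linter.all false

namespace Pool.Agent.Y710.EP

open Pool.Agent.Y5.D Pool.Agent.Y5.E Pool.Agent.Y5.F Pool.Agent.Y8.EP

variable {J : Type} {g : J → ℕ} {κ μ lam Λ M : ℝ} {L C ℓ : ℕ → ℝ} {B : ℕ → ℕ → ℝ}
  {c : Ix J → Ix J → Ix J → ℝ}

/-- low advecting field, the advected field in one group from `n` on -/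
theorem EB1 (hK : Ker g Λ M L C B c) (hs : Sq5 κ μ lam Λ M L C ℓ B) {α β γ : Ix J → ℝ}
    (hα : Nice g L α) (hβ : Nice g L β) (hγ : Nice g L γ) {n q : ℕ} (hq : n ≤ q)
    (h1 : InG g n α) (h : InLow g n β) (h2 : InG g q γ) {b : ℕ → ℝ}
    (hb : ∀ p, nm (Pg g p β) ≤ b p) :
    |tl c α β γ| ≤ M * (nm α * (L n * ∑ p ∈ Finset.range n, (Λ / lam) ^ (n - 1 - p) * b p) * nm γ) := by
  have hb0 : ∀ p, 0 ≤ b p := fun p => (nm_nn _).trans (hb p)
  have h3 := E2 hK hs hα hβ hγ (s := Finset.range n)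
    (fun a ha => h a (by simpa using ha)) h1 h2 (b := b) (fun p _ => hb p)
  refine h3.trans ?_
  have h4 : ∑ p ∈ Finset.range n, om Λ M L n p q * b p ≤
      M * (L n * ∑ p ∈ Finset.range n, (Λ / lam) ^ (n - 1 - p) * b p) := by
    rw [Finset.mul_sum, Finset.mul_sum]
    refine Finset.sum_le_sum fun p hp => ?_
    rw [Finset.mem_range] at hp
    have e : om Λ M L n p q = M * (L p * Λ ^ (n - p)) := by
      unfold om
      rw [min_eq_left hq, if_pos hp.le]
      ring
    rw [e]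
    have h5 := (LΛ hs hp.le).trans
      (mul_le_mul_of_nonneg_left (ρ_pow_le hs (show n - 1 - p ≤ n - p by omega)) (L_nn hs n))
    calc M * (L p * Λ ^ (n - p)) * b p ≤ M * (L n * (Λ / lam) ^ (n - 1 - p)) * b p := by
          have := M_nn hs
          have := hb0 p
          gcongr
      _ = _ := by ring
  have h5 := nm_nn α
  have h6 := nm_nn γ
  calc nm α * (∑ p ∈ Finset.range n, om Λ M L n p q * b p) * nm γ
      ≤ nm α * (M * (L n * ∑ p ∈ Finset.range n, (Λ / lam) ^ (n - 1 - p) * b p)) * nm γ := by gcongr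
    _ = _ := by ring

/-- low advected field, the advecting field in one group from `n` on -/
theorem EC1 (hK : Ker g Λ M L C B c) (hs : Sq5 κ μ lam Λ M L C ℓ B) {α β γ : Ix J → ℝ}
    (hα : Nice g L α) (hβ : Nice g L β) (hγ : Nice g L γ) {n p : ℕ} (hp : n ≤ p)
    (h1 : InG g n α) (h : InLow g n γ) (h2 : InG g p β) {b : ℕ → ℝ}
    (hb : ∀ p, nm (Pg g p γ) ≤ b p) :
    |tl c α β γ| ≤ M * (nm α * nm β * (∑ q ∈ Finset.range n, L q * b q)) := by
  have h3 := E3 hK hs hα hβ hγ (s := Finset.range n)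
    (fun a ha => h a (by simpa using ha)) h1 h2 (b := b) (fun p _ => hb p)
  refine h3.trans (le_of_eq ?_)
  have h4 : ∑ q ∈ Finset.range n, om Λ M L n p q * b q = M * ∑ q ∈ Finset.range n, L q * b q := by
    rw [Finset.mul_sum]
    refine Finset.sum_congr rfl fun q hq => ?_
    rw [Finset.mem_range] at hq
    unfold om
    rw [min_eq_right hq.le, if_neg (by omega)]
    ring
  rw [h4]
  ring

theorem sumL (hs : Sq5 κ μ lam Λ M L C ℓ B) (n : ℕ) {b : ℕ → ℝ} (hb : ∀ p, 0 ≤ b p) :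
    ∑ q ∈ Finset.range n, L q * b q ≤
      L n * ∑ p ∈ Finset.range n, (Λ / lam) ^ (n - 1 - p) * b p := by
  rw [Finset.mul_sum]
  refine Finset.sum_le_sum fun p hp => ?_
  rw [Finset.mem_range] at hp
  have h5 := (Lρ hs hp.le).trans
      (mul_le_mul_of_nonneg_left (ρ_pow_le hs (show n - 1 - p ≤ n - p by omega)) (L_nn hs n))
  calc L p * b p ≤ L n * (Λ / lam) ^ (n - 1 - p) * b p := mul_le_mul_of_nonneg_right h5 (hb p)
    _ = _ := by ring

/-- both fields low: the general estimate -/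
theorem EA (hK : Ker g Λ M L C B c) (hs : Sq5 κ μ lam Λ M L C ℓ B) {α β γ : Ix J → ℝ}
    (hα : Nice g L α) (hβ : Nice g L β) (hγ : Nice g L γ) {n : ℕ}
    (h1 : InG g (n + 1) α) (h : InLow g (n + 1) β) (h2 : InLow g (n + 1) γ) {b : ℕ → ℝ}
    (hb : ∀ p, nm (Pg g p β) ≤ b p) (hb' : ∀ p, nm (Pg g p γ) ≤ b p) :
    |tl c α β γ| ≤ 2 * (M * (nm α * (L n * (∑ p ∈ Finset.range (n + 1), (Λ / lam) ^ (n - p) * b p)
      * b n))) := by
  have hb0 : ∀ p, 0 ≤ b p := fun p => (nm_nn _).trans (hb p)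
  have e1 : tl c α β γ = tl c α β (Pg g n γ) + tl c α (Pg g n β) (Pl g n γ) := by
    have e2 : tl c α β γ = tl c α β (fun a => Pg g n γ a + Pl g n γ a) := by
      refine tl_congr fun i a b _ => ?_
      congr 1
      unfold Pg Pl
      by_cases h3 : n + 1 ≤ gr g b
      · rw [h2 b h3]; simp
      · by_cases h4 : gr g b = n
        · rw [if_pos h4, if_neg (by omega), add_zero]
        · rw [if_neg h4, if_pos (by omega), zero_add]
    rw [e2, tl_add3 hK hs hα hβ (hγ.pg hs n) (hγ.pl hs n)]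
    congr 1
    refine tl_congr fun i a b hc => ?_
    unfold Pg Pl
    by_cases h3 : gr g a = n
    · rw [if_pos h3]
    · rw [if_neg h3]
      by_cases h4 : gr g b < n
      · by_cases h5 : gr g i = n + 1
        · by_cases h6 : n + 1 ≤ gr g a
          · rw [h a h6]
          · have := (hK.near _ _ _ hc).1
            omega
        · rw [h1 i h5]; ring
      · rw [if_neg h4]; ring
  rw [e1]
  refine (abs_add_le _ _).trans ?_
  set A := ∑ p ∈ Finset.range (n + 1), (Λ / lam) ^ (n - p) * b p with hA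
  have hA0 : 0 ≤ A := Finset.sum_nonneg fun p _ => mul_nonneg (pow_nonneg (ρ_nn hs) _) (hb0 p)
  have h5 := nm_nn α
  have h7 := M_nn hs
  have h8 := L_nn hs n
  have t1 : |tl c α β (Pg g n γ)| ≤ M * (nm α * (L n * A * b n)) := by
    refine (E2 hK hs hα hβ (hγ.pg hs n) (s := Finset.range (n + 1))
      (fun a ha => h a (by simpa using ha)) h1 (Pg_in n γ) (b := b) (fun p _ => hb p)).trans ?_
    have h4 : ∑ p ∈ Finset.range (n + 1), om Λ M L (n + 1) p n * b p ≤ M * (L n * A) := by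
      rw [hA, Finset.mul_sum, Finset.mul_sum]
      refine Finset.sum_le_sum fun p hp => ?_
      rw [Finset.mem_range] at hp
      have e : om Λ M L (n + 1) p n = M * (L p * Λ ^ (n - p)) := by
        unfold om
        rw [min_eq_right (by omega), if_pos (by omega)]
        ring
      rw [e]
      have h5 := LΛ hs (show p ≤ n by omega)
      calc M * (L p * Λ ^ (n - p)) * b p ≤ M * (L n * (Λ / lam) ^ (n - p)) * b p := by
            have := hb0 p
            gcongr
        _ = _ := by ring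
    have h6 := hb' n
    have h9 := hb0 n
    have h10 := nm_nn (Pg g n γ)
    calc nm α * (∑ p ∈ Finset.range (n + 1), om Λ M L (n + 1) p n * b p) * nm (Pg g n γ)
        ≤ nm α * (M * (L n * A)) * b n := by gcongr
      _ = _ := by ring
  have t2 : |tl c α (Pg g n β) (Pl g n γ)| ≤ M * (nm α * (L n * A * b n)) := by
    have hlow : ∀ a, gr g a ∉ Finset.range (n + 1) → Pl g n γ a = 0 := fun a ha => by
      unfold Pl
      rw [if_neg]
      have : ¬ gr g a < n + 1 := by simpa using ha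
      omega
    refine (E3 hK hs hα (hβ.pg hs n) (hγ.pl hs n) (s := Finset.range (n + 1)) hlow h1 (Pg_in n β)
      (b := b) (fun q _ => ?_)).trans ?_
    · refine le_trans ?_ (hb' q)
      refine nm_mono hs (hγ.pg hs q) fun a => ?_
      unfold Pg Pl
      split_ifs
      exacts [le_rfl, by simp, le_rfl]
    · have h4 : ∑ q ∈ Finset.range (n + 1), om Λ M L (n + 1) n q * b q ≤ M * (L n * A) := by
        rw [hA, Finset.mul_sum, Finset.mul_sum]
        refine Finset.sum_le_sum fun q hq => ?_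
        rw [Finset.mem_range] at hq
        have e : om Λ M L (n + 1) n q ≤ M * L q := by
          have := om_le hs (n + 1) n q
          rwa [min_eq_right (by omega)] at this
        have h5 := Lρ hs (show q ≤ n by omega)
        calc om Λ M L (n + 1) n q * b q ≤ M * (L n * (Λ / lam) ^ (n - q)) * b q := by
              have := hb0 q
              gcongr
              exact e.trans (by gcongr)
          _ = _ := by ring
      have h6 := hb n
      have h9 := hb0 n
      have h10 := nm_nn (Pg g n β)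
      have h11 : 0 ≤ ∑ q ∈ Finset.range (n + 1), om Λ M L (n + 1) n q * b q :=
        Finset.sum_nonneg fun q _ => mul_nonneg (om_nn hs _ _ _) (hb0 q)
      calc nm α * nm (Pg g n β) * (∑ q ∈ Finset.range (n + 1), om Λ M L (n + 1) n q * b q)
          ≤ nm α * b n * (M * (L n * A)) := by gcongr
        _ = _ := by ring
  have : M * (nm α * (L n * A * b n)) + M * (nm α * (L n * A * b n)) =
    2 * (M * (nm α * (L n * A * b n))) := by ring
  linarith

/-- both fields low, output in the main mode: the estimate with separation -/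
theorem EA' (hK : Ker g Λ M L C B c) (hs : Sq5 κ μ lam Λ M L C ℓ B) {α β γ : Ix J → ℝ}
    (hα : Nice g L α) (hβ : Nice g L β) (hγ : Nice g L γ) {n : ℕ}
    (h1 : ∀ i, i ≠ Sum.inl (n + 1) → α i = 0) (h : InLow g (n + 1) β) (h2 : InLow g (n + 1) γ)
    {b b' : ℕ → ℝ}
    (hb : ∀ p, nm (Pg g p β) ≤ b p) (hb' : ∀ p, nm (Pg g p γ) ≤ b' p) :
    |tl c α β γ| ≤ M * (nm α * (L n * ((b n + b (n - 1)) * (b' n + b' (n - 1))))) := by
  have hb0 : ∀ p, 0 ≤ b p := fun p => (nm_nn _).trans (hb p)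
  have hb0' : ∀ p, 0 ≤ b' p := fun p => (nm_nn _).trans (hb' p)
  have h1' : InG g (n + 1) α := fun i hi => h1 i (fun h => hi (by rw [h]; rfl))
  let S : Finset ℕ := insert n {n - 1}
  have hS : ∀ k, k ∈ S ↔ (k = n ∨ k = n - 1) := fun k => by simp [S]
  -- restrict to the two groups
  let β' : Ix J → ℝ := fun a => if gr g a ∈ S then β a else 0
  let γ' : Ix J → ℝ := fun a => if gr g a ∈ S then γ a else 0
  have hβle : ∀ a, |β' a| ≤ |β a| := fun a => by
    show |if gr g a ∈ S then β a else 0| ≤ |β a|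
    split_ifs
    exacts [le_rfl, by simp]
  have hγle : ∀ a, |γ' a| ≤ |γ a| := fun a => by
    show |if gr g a ∈ S then γ a else 0| ≤ |γ a|
    split_ifs
    exacts [le_rfl, by simp]
  have e1 : tl c α β γ = tl c α β' γ' := by
    refine tl_congr fun i a b hc => ?_
    show α i * β a * γ b = α i * (if gr g a ∈ S then β a else 0) * (if gr g b ∈ S then γ b else 0)
    by_cases hi : i = Sum.inl (n + 1)
    · subst hi
      by_cases ha : n + 1 ≤ gr g a
      · rw [h a ha]; simp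
      by_cases hbb : n + 1 ≤ gr g b
      · rw [h2 b hbb]; simp
      have h3 := hK.sep (n + 1) a b hc (by omega) (by omega)
      rw [if_pos ((hS _).2 (by omega)), if_pos ((hS _).2 (by omega))]
    · rw [h1 i hi]; ring
  have hβ' := hβ.mono hs hβle
  have hγ' := hγ.mono hs hγle
  have hβ0 : ∀ a, gr g a ∉ S → β' a = 0 := fun a ha => if_neg ha
  have hγ0 : ∀ a, gr g a ∉ S → γ' a = 0 := fun a ha => if_neg ha
  have hcmp : ∀ (z z' : Ix J → ℝ), Nice g L z → (∀ a, |z' a| ≤ |z a|) → ∀ p,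
      nm (Pg g p z') ≤ nm (Pg g p z) := by
    intro z z' hz hle p
    refine nm_mono hs (hz.pg hs p) fun a => ?_
    unfold Pg
    split_ifs
    exacts [hle a, by simp]
  have hsum : ∀ (f : ℕ → ℝ), (∀ k, 0 ≤ f k) → ∑ k ∈ S, f k ≤ f n + f (n - 1) := by
    intro f hf
    by_cases hn : n = n - 1
    · have : S = {n} := by
        show insert n {n - 1} = {n}
        rw [← hn]; simp
      rw [this, Finset.sum_singleton]
      linarith [hf (n - 1)]
    · show ∑ k ∈ insert n {n - 1}, f k ≤ _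
      rw [Finset.sum_pair hn]
  rw [e1, tl_sum3 hK hs hα hβ' hγ' hγ0]
  refine (Finset.abs_sum_le_sum_abs _ _).trans ?_
  have hM := M_nn hs
  have hL := L_nn hs n
  have hna := nm_nn α
  have key : ∀ q ∈ S, |tl c α β' (Pg g q γ')| ≤ M * (nm α * (L n * ((b n + b (n - 1)) * b' q))) := by
    intro q hq
    refine (E2 hK hs hα hβ' (hγ'.pg hs q) hβ0 h1' (Pg_in q γ') (b := b)
      (fun p _ => (hcmp β β' hβ hβle p).trans (hb p))).trans ?_
    have h4 : ∑ p ∈ S, om Λ M L (n + 1) p q * b p ≤ M * (L n * (b n + b (n - 1))) := by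
      calc ∑ p ∈ S, om Λ M L (n + 1) p q * b p ≤ ∑ p ∈ S, M * L n * b p := by
            refine Finset.sum_le_sum fun p hp => ?_
            refine mul_le_mul_of_nonneg_right ?_ (hb0 p)
            refine (om_le hs _ _ _).trans (mul_le_mul_of_nonneg_left (L_mono hs ?_) hM)
            rw [hS] at hq
            omega
        _ = M * L n * ∑ p ∈ S, b p := by rw [Finset.mul_sum]
        _ ≤ M * L n * (b n + b (n - 1)) := by
            gcongr
            exact hsum b hb0
        _ = _ := by ring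
    have h5 := (hcmp γ γ' hγ hγle q).trans (hb' q)
    have h6 := nm_nn (Pg g q γ')
    have h7 := add_nonneg (hb0 n) (hb0 (n - 1))
    calc nm α * (∑ p ∈ S, om Λ M L (n + 1) p q * b p) * nm (Pg g q γ')
        ≤ nm α * (M * (L n * (b n + b (n - 1)))) * b' q := by gcongr
      _ = _ := by ring
  refine (Finset.sum_le_sum key).trans ?_
  have h7 := add_nonneg (hb0 n) (hb0 (n - 1))
  calc ∑ q ∈ S, M * (nm α * (L n * ((b n + b (n - 1)) * b' q)))
      = M * (nm α * (L n * ((b n + b (n - 1)) * ∑ q ∈ S, b' q))) := by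
        simp only [Finset.mul_sum]
    _ ≤ _ := by
        gcongr
        exact hsum b' hb0'

/-! ### High-high -/

theorem pg_sq_sum (hs : Sq5 κ μ lam Λ M L C ℓ B) {z : Ix J → ℝ} (hz : Nice g L z) (s : Finset ℕ) :
    ∑ p ∈ s, nm (Pg g p z) ^ 2 ≤ nm z ^ 2 := by
  simp only [nm_sq]
  rw [← Summable.tsum_finsetSum (fun p _ => (hz.pg hs p).sq hs)]
  refine (summable_sum fun p _ => (hz.pg hs p).sq hs).tsum_le_tsum (fun a => ?_) (hz.sq hs)
  by_cases ha : gr g a ∈ s
  · rw [Finset.sum_eq_single_of_mem (gr g a) ha]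
    · unfold Pg; rw [if_pos rfl]
    · intro p _ hp
      unfold Pg; rw [if_neg (fun h => hp h.symm)]; norm_num
  · rw [Finset.sum_eq_zero]
    · exact sq_nonneg _
    · intro p hp
      unfold Pg; rw [if_neg (fun h => ha (by rw [h]; exact hp))]; norm_num

/-- near-diagonal sums -/
theorem schur (s : Finset ℕ) (b d : ℕ → ℝ) (hb : ∀ p, 0 ≤ b p) (hd : ∀ p, 0 ≤ d p) {Sb Sd : ℝ}
    (hSb : 0 ≤ Sb) (hSd : 0 ≤ Sd)
    (h1 : ∑ p ∈ s, b p ^ 2 ≤ Sb ^ 2) (h2 : ∑ p ∈ s, d p ^ 2 ≤ Sd ^ 2) :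
    ∑ p ∈ s, ∑ q ∈ s, (if q ≤ p + 1 ∧ p ≤ q + 1 then b p * d q else 0) ≤ 3 * (Sb * Sd) := by
  -- for every t > 0, b d ≤ (t b^2 + d^2 / t) / 2
  have hcard : ∀ p : ℕ, ((s.filter fun q => q ≤ p + 1 ∧ p ≤ q + 1).card : ℝ) ≤ 3 := by
    intro p
    have : (s.filter fun q => q ≤ p + 1 ∧ p ≤ q + 1) ⊆ ({p - 1, p, p + 1} : Finset ℕ) := by
      intro q hq
      rw [Finset.mem_filter] at hq
      simp only [Finset.mem_insert, Finset.mem_singleton]
      omega
    have h3 := (Finset.card_le_card this).trans Finset.card_le_three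
    exact_mod_cast h3
  have hA : ∀ (f : ℕ → ℝ), (∀ p, 0 ≤ f p) → ∑ p ∈ s, ∑ q ∈ s,
      (if q ≤ p + 1 ∧ p ≤ q + 1 then f p else 0) ≤ 3 * ∑ p ∈ s, f p := by
    intro f hf
    rw [Finset.mul_sum]
    refine Finset.sum_le_sum fun p _ => ?_
    rw [← Finset.sum_filter, Finset.sum_const, nsmul_eq_mul]
    exact mul_le_mul_of_nonneg_right (hcard p) (hf p)
  have hB : ∀ (f : ℕ → ℝ), (∀ p, 0 ≤ f p) → ∑ p ∈ s, ∑ q ∈ s,
      (if q ≤ p + 1 ∧ p ≤ q + 1 then f q else 0) ≤ 3 * ∑ p ∈ s, f p := by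
    intro f hf
    rw [Finset.sum_comm]
    refine le_trans (le_of_eq ?_) (hA f hf)
    refine Finset.sum_congr rfl fun p _ => Finset.sum_congr rfl fun q _ => ?_
    by_cases h : q ≤ p + 1 ∧ p ≤ q + 1
    · rw [if_pos h, if_pos ⟨h.2, h.1⟩]
    · rw [if_neg h, if_neg (fun h' => h ⟨h'.2, h'.1⟩)]
  set X := ∑ p ∈ s, ∑ q ∈ s, (if q ≤ p + 1 ∧ p ≤ q + 1 then b p * d q else 0) with hX
  have key : ∀ t : ℝ, 0 < t → 2 * X ≤ 3 * (t * Sb ^ 2) + 3 * (t⁻¹ * Sd ^ 2) := by
    intro t ht
    have h3 : 2 * X ≤ ∑ p ∈ s, ∑ q ∈ s, (if q ≤ p + 1 ∧ p ≤ q + 1 then t * b p ^ 2 else 0) +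
        ∑ p ∈ s, ∑ q ∈ s, (if q ≤ p + 1 ∧ p ≤ q + 1 then t⁻¹ * d q ^ 2 else 0) := by
      rw [hX, Finset.mul_sum, ← Finset.sum_add_distrib]
      refine Finset.sum_le_sum fun p _ => ?_
      rw [Finset.mul_sum, ← Finset.sum_add_distrib]
      refine Finset.sum_le_sum fun q _ => ?_
      split_ifs
      · have h4 : 0 ≤ t⁻¹ * (t * b p - d q) ^ 2 := by positivity
        have h5 : t⁻¹ * (t * b p - d q) ^ 2 = t * b p ^ 2 + t⁻¹ * d q ^ 2 - 2 * (b p * d q) := by
          field_simp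
          ring
        linarith
      · simp
    have h4 := hA (fun p => t * b p ^ 2) (fun p => by positivity)
    have h5 := hB (fun p => t⁻¹ * d p ^ 2) (fun p => by positivity)
    rw [← Finset.mul_sum] at h4 h5
    have h6 : t * ∑ p ∈ s, b p ^ 2 ≤ t * Sb ^ 2 := mul_le_mul_of_nonneg_left h1 ht.le
    have h7 : t⁻¹ * ∑ p ∈ s, d p ^ 2 ≤ t⁻¹ * Sd ^ 2 :=
      mul_le_mul_of_nonneg_left h2 (inv_pos.2 ht).le
    linarith
  have hX0 : ∀ (h : X ≤ 0), X ≤ 3 * (Sb * Sd) := fun h => h.trans (by positivity)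
  by_contra hcon
  push Not at hcon
  -- choose t
  have hpos : ∀ ε : ℝ, 0 < ε → X ≤ 3 * ((Sb + ε) * (Sd + ε)) := by
    intro ε hε
    have h3 := key ((Sd + ε) / (Sb + ε)) (by positivity)
    have h4 : (Sd + ε) / (Sb + ε) * Sb ^ 2 ≤ (Sb + ε) * (Sd + ε) := by
      rw [div_mul_eq_mul_div, div_le_iff₀ (by positivity)]
      have : Sb ^ 2 ≤ (Sb + ε) ^ 2 := by gcongr; linarith
      nlinarith
    have h5 : ((Sd + ε) / (Sb + ε))⁻¹ * Sd ^ 2 ≤ (Sb + ε) * (Sd + ε) := by
      rw [inv_div, div_mul_eq_mul_div, div_le_iff₀ (by positivity)]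
      have : Sd ^ 2 ≤ (Sd + ε) ^ 2 := by gcongr; linarith
      nlinarith
    linarith
  have h3 : Tendsto (fun ε : ℝ => 3 * ((Sb + ε) * (Sd + ε))) (𝓝[>] 0) (𝓝 (3 * ((Sb + 0) * (Sd + 0)))) := by
    refine Tendsto.mono_left ?_ nhdsWithin_le_nhds
    exact (Continuous.tendsto (by fun_prop) 0)
  have h4 : X ≤ 3 * ((Sb + 0) * (Sd + 0)) := by
    refine ge_of_tendsto h3 ?_
    filter_upwards [self_mem_nhdsWithin] with ε hε using hpos ε hε
  rw [add_zero, add_zero] at h4
  linarith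

theorem tl_trunc (hK : Ker g Λ M L C B c) (hs : Sq5 κ μ lam Λ M L C ℓ B) {α β γ : Ix J → ℝ}
    (hα : Nice g L α) (hβ : Nice g L β) (hγ : Nice g L γ) :
    Tendsto (fun K : ℕ => tl c α (Pl g K β) (Pl g K γ)) atTop (𝓝 (tl c α β γ)) := by
  have h := tm_summable hK hs hα hβ hγ
  simp only [tl_eq]
  refine tendsto_tsum_of_dominated_convergence h.abs (fun t => ?_) ?_
  · refine tendsto_const_nhds.congr' ?_
    filter_upwards [eventually_gt_atTop (max (gr g t.2.1) (gr g t.2.2))] with K hK'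
    unfold tm Pl
    rw [if_pos (lt_of_le_of_lt (le_max_left _ _) hK'), if_pos (lt_of_le_of_lt (le_max_right _ _) hK')]
  · refine Eventually.of_forall fun K t => ?_
    unfold tm
    simp only [Real.norm_eq_abs, abs_mul]
    have h1 := Pl_le (g := g) K β t.2.1
    have h2 := Pl_le (g := g) K γ t.2.2
    gcongr

/-- both fields high -/
theorem ED (hK : Ker g Λ M L C B c) (hs : Sq5 κ μ lam Λ M L C ℓ B) {α β γ : Ix J → ℝ}
    (hα : Nice g L α) (hβ : Nice g L β) (hγ : Nice g L γ) {n : ℕ}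
    (h1 : InG g n α) (h : InUp g n β) (h2 : InUp g n γ) :
    |tl c α β γ| ≤ 3 * (M * (nm α * (L n * (nm β * nm γ)))) := by
  have hM := M_nn hs
  have hL := L_nn hs n
  have hna := nm_nn α
  refine le_of_tendsto (tl_trunc hK hs hα hβ hγ).abs (Eventually.of_forall fun K => ?_)
  let s : Finset ℕ := Finset.Ico n K
  have hz : ∀ z : Ix J → ℝ, InUp g n z → ∀ a, gr g a ∉ s → Pl g K z a = 0 := by
    intro z hz a ha
    unfold Pl
    split_ifs with h3
    · refine hz a ?_
      by_contra h4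
      exact ha (Finset.mem_Ico.2 ⟨by omega, h3⟩)
    · rfl
  have hβ' := hβ.pl hs K
  have hγ' := hγ.pl hs K
  rw [tl_sum2 hK hs hα hβ' hγ' (hz β h)]
  refine (Finset.abs_sum_le_sum_abs _ _).trans ?_
  have h3 : ∀ p ∈ s, |tl c α (Pg g p (Pl g K β)) (Pl g K γ)| ≤ ∑ q ∈ s,
      (M * (nm α * L n)) * (if q ≤ p + 1 ∧ p ≤ q + 1 then
        nm (Pg g p (Pl g K β)) * nm (Pg g q (Pl g K γ)) else 0) := by
    intro p hp
    rw [Finset.mem_Ico] at hp
    rw [tl_sum3 hK hs hα (hβ'.pg hs p) hγ' (hz γ h2)]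
    refine (Finset.abs_sum_le_sum_abs _ _).trans ?_
    refine Finset.sum_le_sum fun q hq => ?_
    rw [Finset.mem_Ico] at hq
    by_cases hpq : q ≤ p + 1 ∧ p ≤ q + 1
    · rw [if_pos hpq]
      refine (blk hK h1 (Pg_in p _) (Pg_in q _)).trans ?_
      have h4 := om_le hs n p q
      rw [min_eq_left hq.1] at h4
      have h5 := nm_nn (Pg g p (Pl g K β))
      have h6 := nm_nn (Pg g q (Pl g K γ))
      calc om Λ M L n p q * nm α * nm (Pg g p (Pl g K β)) * nm (Pg g q (Pl g K γ))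
          ≤ (M * L n) * nm α * nm (Pg g p (Pl g K β)) * nm (Pg g q (Pl g K γ)) := by gcongr
        _ = _ := by ring
    · rw [if_neg hpq, mul_zero]
      refine le_of_eq (abs_eq_zero.2 (tl_zero fun i a b hc => ?_))
      by_cases h7 : gr g i = n
      · by_cases h8 : gr g a = p
        · by_cases h9 : gr g b = q
          · exfalso
            have := hK.near _ _ _ hc
            omega
          · rw [Pg_in q _ b h9]; ring
        · rw [Pg_in p _ a h8]; ring
      · rw [h1 i h7]; ring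
  refine (Finset.sum_le_sum h3).trans ?_
  simp only [← Finset.mul_sum]
  have h4 := schur s (fun p => nm (Pg g p (Pl g K β))) (fun q => nm (Pg g q (Pl g K γ)))
    (fun p => nm_nn _) (fun q => nm_nn _) (nm_nn β) (nm_nn γ)
    ((pg_sq_sum hs hβ' s).trans (pow_le_pow_left₀ (nm_nn _) (nm_mono hs hβ (Pl_le K β)) 2))
    ((pg_sq_sum hs hγ' s).trans (pow_le_pow_left₀ (nm_nn _) (nm_mono hs hγ (Pl_le K γ)) 2))
  calc _ ≤ (M * (nm α * L n)) * (3 * (nm β * nm γ)) :=
        mul_le_mul_of_nonneg_left h4 (by positivity)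
    _ = _ := by ring

/-! ### Low-high, with the high field in all groups -/

theorem up_split {n : ℕ} {α β γ : Ix J → ℝ} (hK : Ker g Λ M L C B c) (hs : Sq5 κ μ lam Λ M L C ℓ B)
    (hα : Nice g L α) (hβ : Nice g L β) (hγ : Nice g L γ)
    (h1 : InG g n α) (h : InLow g n β) (h2 : InUp g n γ) :
    tl c α β γ = tl c α β (Pg g n γ) + tl c α β (Pg g (n + 1) γ) := by
  rw [← tl_add3 hK hs hα hβ (hγ.pg hs n) (hγ.pg hs (n + 1))]
  refine tl_congr fun i a b hc => ?_
  by_cases h3 : gr g i = n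
  · by_cases h4 : n ≤ gr g a
    · rw [h a h4]; ring
    · congr 1
      unfold Pg
      by_cases h5 : gr g b = n
      · rw [if_pos h5, if_neg (by omega), add_zero]
      · by_cases h6 : gr g b = n + 1
        · rw [if_neg h5, if_pos h6, zero_add]
        · rw [if_neg h5, if_neg h6, add_zero]
          refine h2 b ?_
          have := hK.near _ _ _ hc
          omega
  · rw [h1 i h3]; ring

theorem up_split' {n : ℕ} {α β γ : Ix J → ℝ} (hK : Ker g Λ M L C B c) (hs : Sq5 κ μ lam Λ M L C ℓ B)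
    (hα : Nice g L α) (hβ : Nice g L β) (hγ : Nice g L γ)
    (h1 : InG g n α) (h : InLow g n γ) (h2 : InUp g n β) :
    tl c α β γ = tl c α (Pg g n β) γ + tl c α (Pg g (n + 1) β) γ := by
  rw [← tl_add2 hK hs hα (hβ.pg hs n) (hβ.pg hs (n + 1)) hγ]
  refine tl_congr fun i a b hc => ?_
  by_cases h3 : gr g i = n
  · by_cases h4 : n ≤ gr g b
    · rw [h b h4]; ring
    · congr 1
      congr 1
      unfold Pg
      by_cases h5 : gr g a = n
      · rw [if_pos h5, if_neg (by omega), add_zero]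
      · by_cases h6 : gr g a = n + 1
        · rw [if_neg h5, if_pos h6, zero_add]
        · rw [if_neg h5, if_neg h6, add_zero]
          refine h2 a ?_
          have := hK.near _ _ _ hc
          omega
  · rw [h1 i h3]; ring

end Pool.Agent.Y710.EP
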